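import Pool.Agent.Lib.MP_9dcf40_lc.DU.Spec
import Pool.Agent.Lib.MP_9dcf40_lc.DT.Spec3

/-!
# Strongly unambiguous programs, two-sided error, exponentially small advantage (MP_9dcf40_lc): statements
-/

namespace SRBP

open Finset

/-- TOPX for one function: advantage `2 ^ (-a)`. -/
def TopX (A n : ℕ) (f : (Fin n → Bool) → Prop) : Prop :=
  ∀ k a : ℕ, 2 ≤ k → 1 ≤ a → a * (k : ℝ) ^ (A * k) ≤ n → ∀ P : NBP (Fin n), SUnamb P →
    (Fintype.card P.V : ℝ) < Real.exp (n / (a * (k : ℝ) ^ (A * k))) →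
    |∑ y ∈ ShU P (k * n), chi f y| ≤
      (ShU P (k * n)).card / 2 ^ a + 2 ^ n * Real.exp (-(n / (k : ℝ) ^ (A * k)))

/-- TOPX (helper76): from `S_ProgU`. -/
def S_TopX : Prop := ∃ A N : ℕ, 1 ≤ A ∧ ∀ n ≥ N, ∃ c : Coef n → Bool, TopX A n (fun y => quartic c y = 1)

/-- AUGU: a finite counter (state `C`, changed by `upd` at each test), acceptance also asks for `ok` at the end. -/
def S_AugU : Prop := ∀ (ι C : Type) [Fintype C] (P : NBP ι) (c₀ : C) (upd : C → ι × Bool → C) (ok : C → Prop),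
  SUnamb P → ∃ P' : NBP ι, Fintype.card P'.V = Fintype.card P.V * Fintype.card C ∧ SUnamb P' ∧
    ∀ x T, AccIn P' T x ↔ ∃ l v, P.acc v ∧ Path P x P.start l v ∧ (l.filterMap Prod.fst).length ≤ T ∧
      ok ((l.filterMap Prod.fst).foldl upd c₀)

/-- No state is visited twice on an accepting path (otherwise leave out the cycle), so the number of tests on
it is less than the number of states. -/
def S_LenU : Prop := ∀ (ι : Type) (P : NBP ι), SUnamb P → ∀ x l v, P.acc v → Path P x P.start l v →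
  l.length < Fintype.card P.V

/-- Part (1): one circuit, difference form. -/
def PartX1 (A n m : ℕ) (c : CBits n m → Bool) : Prop :=
  ∀ k a : ℕ, 2 ≤ k → 1 ≤ a → a * (k : ℝ) ^ (A * k) ≤ n → ∀ P : NBP (Fin n), SUnamb P →
    (Fintype.card P.V : ℝ) < Real.exp (n / (a * (k : ℝ) ^ (A * k))) →
    |(Nat.card {y : Fin n → Bool // AccIn P (k * n) y ∧ Val n m c y} : ℝ) -
        Nat.card {y : Fin n → Bool // AccIn P (k * n) y ∧ ¬ Val n m c y}| ≤
      (Nat.card {y : Fin n → Bool // AccIn P (k * n) y} : ℝ) / 2 ^ a +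
        2 ^ n * Real.exp (-(n / (k : ℝ) ^ (A * k)))

/-- Part (2): parity of the values on `t` random inputs. -/
def PartX2 (A n m : ℕ) (c : CBits n m → Bool) : Prop :=
  ∀ k a : ℕ, 2 ≤ k → 1 ≤ a → a ^ 2 * (k : ℝ) ^ (A * k) * Real.log n ≤ n →
    ∀ t T : ℕ, Fintype.card (CBits n m) ≤ t * n →
      T = k * Fintype.card (CBits n m ⊕ Fin t × Fin n) →
    ∀ P : NBP (CBits n m ⊕ Fin t × Fin n), SUnamb P →
    (Fintype.card P.V : ℝ) < Real.exp (n / (a * (k : ℝ) ^ (A * k))) →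
    |(Nat.card {Y : Fin t × Fin n → Bool //
          AccIn P T (Sum.elim c Y) ∧ RBP.OddVal n m t (Sum.elim c Y)} : ℝ) -
        Nat.card {Y : Fin t × Fin n → Bool //
          AccIn P T (Sum.elim c Y) ∧ ¬ RBP.OddVal n m t (Sum.elim c Y)}| ≤
      (Nat.card {Y : Fin t × Fin n → Bool // AccIn P T (Sum.elim c Y)} : ℝ) / 2 ^ a +
        2 ^ (t * n) * Real.exp (-(n / (k : ℝ) ^ (A * k)))

/-- Part (3): randomised programs; `P i b` accepts the inputs for which the answer of the program `i` is `b`. -/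
def PartX3 (A n m : ℕ) : Prop :=
  ∀ k a : ℕ, 2 ≤ k → 1 ≤ a → a ^ 2 * (k : ℝ) ^ (A * k) * Real.log n ≤ n →
    ∀ t T : ℕ, Fintype.card (CBits n m) ≤ t * n →
      T = k * Fintype.card (CBits n m ⊕ Fin t × Fin n) →
    ∀ (I : Type) [Fintype I] (P : I → Bool → NBP (CBits n m ⊕ Fin t × Fin n)) (w : I → ℝ),
      (∀ i, 0 ≤ w i) → ∑ i, w i = 1 → (∀ i b, SUnamb (P i b)) →
      (∀ i T z, ¬ (AccIn (P i true) T z ∧ AccIn (P i false) T z)) →
      (∀ i b, (Fintype.card (P i b).V : ℝ) < Real.exp (n / (a * (k : ℝ) ^ (A * k)))) →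
      ∃ z : CBits n m ⊕ Fin t × Fin n → Bool, ∀ S : Finset I,
        (∀ i ∈ S, ∃ b : Bool, AccIn (P i b) T z ∧ (b = true ↔ RBP.OddVal n m t z)) →
          ∑ i ∈ S, w i < 1 / 2 + 1 / 2 ^ a

/-- END (helper74). PROOF of (2): `a + 2` random copies `j_1, ..`, `L = 4 k n`, clock `min T |V|` (`S_LenU`), counters up to
`L + 1` for the copies `j_1, .., j_(i-1)`; `(L + 2)^(a+2) ≤ exp (n / (2 a k'^..))` from `a^2 k^(A k) log n ≤ n`. -/
def S_EndX : Prop := ∀ A₀ : ℕ, 1 ≤ A₀ → ∃ A N : ℕ, A₀ ≤ A ∧ ∀ n ≥ N, ∀ (m : ℕ) (f : (Fin n → Bool) → Prop)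
  (c : CBits n m → Bool), TopX A₀ n f → (∀ y, Val n m c y ↔ f y) →
  PartX1 A n m c ∧ PartX2 A n m c ∧ PartX3 A n m

end SRBP
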