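import Pool.Agent.Lib.MP_9dcf40_lc.DU.Model

/-!
# Strongly unambiguous programs with a memory (MP_9dcf40_lc): clock and counters
-/

namespace SRBP

open Finset

namespace AugU

variable {ι : Type}

/-- The memory after an edge. -/
def up {A : Type} (upd : A → ι → A) (α : A) (a : Option (ι × Bool)) : A :=
  match a with
  | none => α
  | some q => upd α q.1

/-- The memory after a path. -/
def memL {A V : Type} (upd : A → ι → A) : A → List (Option (ι × Bool) × V) → A
  | α, [] => α
  | α, e :: l => memL upd (up upd α e.1) l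

/-- The lift of a path. -/
def lift {A V : Type} (upd : A → ι → A) :
    A → List (Option (ι × Bool) × V) → List (Option (ι × Bool) × (V × A))
  | _, [] => []
  | α, e :: l => (e.1, (e.2, up upd α e.1)) :: lift upd (up upd α e.1) l

/-- The program with a memory. -/
def augN (P : NBP ι) (A : Type) [Fintype A] (α₀ : A) (upd : A → ι → A) (acc : A → Prop) : NBP ι where
  V := P.V × A
  fin := inferInstance
  edge := fun u a v => P.edge u.1 a v.1 ∧ v.2 = up upd u.2 a
  start := (P.start, α₀)
  acc := fun u => P.acc u.1 ∧ acc u.2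

theorem lift_tests {A V : Type} (upd : A → ι → A) (l : List (Option (ι × Bool) × V)) :
    ∀ α, (lift upd α l).filterMap Prod.fst = l.filterMap Prod.fst := by
  induction l with
  | nil => intro α; rfl
  | cons e l ih =>
    intro α
    obtain ⟨a, v⟩ := e
    rw [lift]
    cases a with
    | none => simp [ih]
    | some q => simp [ih]

theorem lift_prefix {A V : Type} (upd : A → ι → A) {l l' : List (Option (ι × Bool) × V)} (h : l <+: l') :
    ∀ α, lift upd α l <+: lift upd α l' := by
  induction l generalizing l' with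
  | nil =>
    intro α
    exact List.nil_prefix
  | cons e l ih =>
    intro α
    obtain ⟨m, rfl⟩ := h
    rw [List.cons_append, lift, lift]
    exact List.cons_prefix_cons.2 ⟨rfl, ih ⟨m, rfl⟩ _⟩

variable {P : NBP ι} {A : Type} [Fintype A] {α₀ : A} {upd : A → ι → A} {acc : A → Prop} {x : ι → Bool}

theorem path_lift {u v : P.V} {l : List (Option (ι × Bool) × P.V)} (h : Path P x u l v) :
    ∀ α : A, Path (augN P A α₀ upd acc) x (u, α) (lift upd α l) (v, memL upd α l) := by
  induction h with
  | nil u => exact fun α => Path.nil (P := augN P A α₀ upd acc) (u, α)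
  | @cons u v w a l he hc _ ih =>
    intro α
    exact Path.cons (P := augN P A α₀ upd acc) (u := (u, α)) (v := (v, up upd α a)) ⟨he, rfl⟩ hc
      (ih (up upd α a))

theorem path_proj {u' v' : (augN P A α₀ upd acc).V}
    {l' : List (Option (ι × Bool) × (augN P A α₀ upd acc).V)}
    (h : Path (augN P A α₀ upd acc) x u' l' v') :
    ∃ l : List (Option (ι × Bool) × P.V), Path P x u'.1 l v'.1 ∧ l' = lift upd u'.2 l ∧
      v'.2 = memL upd u'.2 l := by
  induction h with
  | nil u => exact ⟨[], Path.nil _, rfl, rfl⟩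
  | @cons u v w a l he hc _ ih =>
    obtain ⟨l₁, h1, h2, h3⟩ := ih
    obtain ⟨he1, he2⟩ := he
    refine ⟨(a, v.1) :: l₁, Path.cons he1 hc h1, ?_, ?_⟩
    · rw [lift, h2]
      simp only
      rw [← he2]
      rfl
    · rw [memL, h3]
      simp only
      rw [← he2]

theorem sunamb (h : SUnamb P) : SUnamb (augN P A α₀ upd acc) := by
  intro x
  obtain ⟨h1, h2⟩ := h x
  constructor
  · intro l l' v v' hv hv' hl hl'
    obtain ⟨m, p1, p2, -⟩ := path_proj hl
    obtain ⟨m', p1', p2', -⟩ := path_proj hl'
    have h3 : m = m' := h1 m m' v.1 v'.1 hv.1 hv'.1 p1 p1'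
    rw [p2, p2', h3]
  · intro u v l l' hl hl'
    obtain ⟨m, p1, p2, -⟩ := path_proj hl
    obtain ⟨m', p1', p2', -⟩ := path_proj hl'
    rcases h2 u.1 v.1 m m' p1 p1' with h3 | h3
    · left
      rw [p2, p2']
      exact lift_prefix upd h3 _
    · right
      rw [p2, p2']
      exact lift_prefix upd h3 _

/-! ## Counters -/

/-- The number of tests of variables with the property `p`. -/
def tl {V : Type} (p : ι → Bool) (l : List (Option (ι × Bool) × V)) : ℕ :=
  ((l.filterMap Prod.fst).filter (fun q => p q.1)).length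

omit [Fintype A] in
theorem tl_lift {V : Type} (upd : A → ι → A) (p : ι → Bool) (α : A)
    (l : List (Option (ι × Bool) × V)) : tl p (lift upd α l) = tl p l := by
  unfold tl
  rw [lift_tests]

theorem tl_true {V : Type} (l : List (Option (ι × Bool) × V)) :
    tl (fun _ => true) l = (l.filterMap Prod.fst).length := by
  unfold tl
  rw [List.filter_true]

theorem tl_nil {V : Type} (p : ι → Bool) : tl p ([] : List (Option (ι × Bool) × V)) = 0 := rfl

theorem tl_cons {V : Type} (p : ι → Bool) (e : Option (ι × Bool) × V) (l : List (Option (ι × Bool) × V)) :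
    tl p (e :: l) = (match e.1 with
      | none => 0
      | some q => if p q.1 = true then 1 else 0) + tl p l := by
  obtain ⟨a, v⟩ := e
  unfold tl
  cases a with
  | none => simp
  | some q =>
    by_cases h : p q.1 = true
    · simp [h, Nat.add_comm]
    · simp [h]

/-- The counters. -/
def cup {I : Type} (M : I → ℕ) (p : I → ι → Bool) (α : ∀ i, Fin (M i + 2)) (a : ι) :
    ∀ i, Fin (M i + 2) := fun i =>
  if p i a = true then ⟨min ((α i : ℕ) + 1) (M i + 1), by omega⟩ else α i

theorem cup_val {I : Type} (M : I → ℕ) (p : I → ι → Bool) (α : ∀ i, Fin (M i + 2)) (a : ι) (i : I) :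
    ((cup M p α a i : Fin (M i + 2)) : ℕ) = if p i a = true then min ((α i : ℕ) + 1) (M i + 1)
      else (α i : ℕ) := by
  unfold cup
  by_cases h : p i a = true
  · rw [if_pos h, if_pos h]
  · rw [if_neg h, if_neg h]

theorem mem_cup {V I : Type} (M : I → ℕ) (p : I → ι → Bool) (l : List (Option (ι × Bool) × V)) (i : I) :
    ∀ α : ∀ i, Fin (M i + 2), ((memL (cup M p) α l i : Fin (M i + 2)) : ℕ) =
      min ((α i : ℕ) + tl (p i) l) (M i + 1) := by
  induction l with
  | nil =>
    intro α
    rw [memL, tl_nil]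
    have := (α i).2
    omega
  | cons e l ih =>
    intro α
    rw [memL, ih, tl_cons]
    obtain ⟨a, v⟩ := e
    cases a with
    | none =>
      show min ((α i : ℕ) + tl (p i) l) (M i + 1) = min ((α i : ℕ) + (0 + tl (p i) l)) (M i + 1)
      omega
    | some q =>
      show min ((cup M p α q.1 i : ℕ) + tl (p i) l) (M i + 1) =
        min ((α i : ℕ) + ((if p i q.1 = true then 1 else 0) + tl (p i) l)) (M i + 1)
      rw [cup_val]
      by_cases h : p i q.1 = true
      · rw [if_pos h, if_pos h]
        omega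
      · rw [if_neg h, if_neg h]
        omega

theorem proj2 {u' v' : (augN P A α₀ upd acc).V}
    {l' : List (Option (ι × Bool) × (augN P A α₀ upd acc).V)}
    (h : Path (augN P A α₀ upd acc) x u' l' v') :
    ∃ l : List (Option (ι × Bool) × P.V), Path P x u'.1 l v'.1 ∧
      l'.filterMap Prod.fst = l.filterMap Prod.fst ∧ v'.2 = memL upd u'.2 l := by
  obtain ⟨l, p1, p2, p3⟩ := path_proj h
  refine ⟨l, p1, ?_, p3⟩
  rw [p2]
  exact lift_tests upd l u'.2

theorem lift2 {u v : P.V} {l : List (Option (ι × Bool) × P.V)} (h : Path P x u l v) (α : A) :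
    ∃ l' : List (Option (ι × Bool) × (augN P A α₀ upd acc).V),
      Path (augN P A α₀ upd acc) x (u, α) l' (v, memL upd α l) ∧
      l'.filterMap Prod.fst = l.filterMap Prod.fst :=
  ⟨_, path_lift h α, lift_tests upd l α⟩

/-- The program with counters: `C` is the condition on the numbers of tests (capped at `M i + 1`). -/
theorem counters (P : NBP ι) (hP : SUnamb P) (I : Type) [Fintype I] [DecidableEq I] (M : I → ℕ)
    (p : I → ι → Bool) (C : (I → ℕ) → Prop) :
    ∃ P' : NBP ι, Fintype.card P'.V = Fintype.card P.V * ∏ i, (M i + 2) ∧ SUnamb P' ∧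
      ∀ (x : ι → Bool) (D : List (ι × Bool) → Prop),
        (∃ l v, P'.acc v ∧ Path P' x P'.start l v ∧ D (l.filterMap Prod.fst)) ↔
        ∃ l v, P.acc v ∧ Path P x P.start l v ∧ D (l.filterMap Prod.fst) ∧
          C (fun i => min (tl (p i) l) (M i + 1)) := by
  have hm : ∀ l : List (Option (ι × Bool) × P.V), (fun i =>
      ((memL (cup M p) (fun i => (⟨0, by omega⟩ : Fin (M i + 2))) l i : Fin (M i + 2)) : ℕ)) =
      fun i => min (tl (p i) l) (M i + 1) := by
    intro l
    funext i
    rw [mem_cup]
    show min (0 + tl (p i) l) (M i + 1) = _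
    rw [Nat.zero_add]
  refine ⟨augN P (∀ i, Fin (M i + 2)) (fun i => ⟨0, by omega⟩) (cup M p)
    (fun α => C (fun i => ((α i : Fin (M i + 2)) : ℕ))), ?_, sunamb hP, ?_⟩
  · show Fintype.card (P.V × (∀ i, Fin (M i + 2))) = _
    rw [Fintype.card_prod, Fintype.card_pi]
    simp only [Fintype.card_fin]
  · intro x D
    constructor
    · rintro ⟨l', v', ⟨hv1, hv2⟩, hl', hD⟩
      obtain ⟨l, p1, p2, p3⟩ := proj2 hl'
      refine ⟨l, v'.1, hv1, p1, ?_, ?_⟩
      · rw [← p2]
        exact hD
      · have h1 := hm l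
        have h2 : C (fun i => ((v'.2 i : Fin (M i + 2)) : ℕ)) := hv2
        rw [p3] at h2
        rw [← h1]
        exact h2
    · rintro ⟨l, v, hv, hl, hD, hC⟩
      obtain ⟨l', q1, q2⟩ := lift2 (α₀ := fun i => (⟨0, by omega⟩ : Fin (M i + 2))) (upd := cup M p)
        (acc := fun α => C (fun i => ((α i : Fin (M i + 2)) : ℕ))) hl
        (fun i => (⟨0, by omega⟩ : Fin (M i + 2)))
      refine ⟨l', _, ⟨hv, ?_⟩, q1, ?_⟩
      · have h1 := hm l
        rw [← h1] at hC
        exact hC
      · rw [q2]
        exact hD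

end AugU

end SRBP
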