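import Pool.Agent.Lib.MP_9dcf40_lc.DT.End3
import Pool.Agent.Lib.MP_9dcf40_lc.DT.DisC
import Pool.Agent.Lib.MP_9dcf40_lc.DT.CirQ
import Pool.Agent.Lib.MP_9dcf40_lc.RD.TopH
import Pool.Agent.Lib.MP_9dcf40_lc.SR.Bridge
import Pool.Agent.Lib.MP_9dcf40_lc.SR.Gat
import Pool.Agent.Lib.MP_9dcf40_lc.SR.Mon
import Pool.Agent.Lib.MP_9dcf40_lc.SR.Xor

/-!
# A circuit which computes a good quartic polynomial (MP_9dcf40_lc)
-/

namespace SRBP

open Finset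

theorem circGood : ∃ N : ℕ, ∀ n ≥ N, ∀ m ≥ 7 * (n + 1) ^ 4, ∃ (c₀ : Coef n → Bool) (c : CBits n m → Bool),
    RBP.Good n c₀ ∧ (∀ y, Val n m c y ↔ quartic c₀ y = 1) ∧ 2 ^ (n - 2) ≤ Nat.card {y // Val n m c y} := by
  classical
  obtain ⟨N, hN⟩ := disQ
  refine ⟨max N (6 ^ 16), ?_⟩
  intro n hn m hm
  have hn6 : 6 ^ 16 ≤ n := le_trans (le_max_right _ _) hn
  obtain ⟨c₀, hc₀⟩ := hN n (le_trans (le_max_left _ _) hn)
  obtain ⟨c, hc⟩ := cirQ_aux tGat (tMon tGat (tXor tGat)) n m c₀ (by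
    have h4 := card_coef n
    have h5 : 1 ≤ (n + 1) ^ 4 := Nat.one_le_pow _ _ (by omega)
    omega)
  have hval : ∀ y, Val n m c y ↔ quartic c₀ y = 1 := fun y => (val_iff n m c y).trans (hc y)
  obtain ⟨l1, l2⟩ := large_n hn6
  obtain ⟨f, hf⟩ : ∃ f : (Fin n → Bool) → Prop, f = fun y => quartic c₀ y = 1 := ⟨_, rfl⟩
  have hd := dens_of_lowDisc (f := f) l1 (le_trans (by norm_num) hn6) l2 (by
    rw [hf]
    exact hc₀ _ (Nat.le_ceil _))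
  have hfv : ∀ y, f y → Val n m c y := fun y hy => (hval y).2 (by rw [hf] at hy; exact hy)
  refine ⟨c₀, c, hc₀, hval, ?_⟩
  rw [Nat.card_eq_fintype_card, Fintype.card_subtype]
  refine hd.trans (card_le_card ?_)
  intro y hy
  rw [mem_filter] at hy ⊢
  exact ⟨mem_univ _, hfv y hy.2⟩

end SRBP
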