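import Pool.Agent.Lib.MP_9dcf40_lc.DU.Spec

/-!
# Deterministic programs are strongly unambiguous (module DETU)
-/

namespace SRBP

namespace DetU

variable {ι : Type} {P : NBP ι} {x : ι → Bool}

/-- The end of a path is determined by its list of edges. -/
theorem fin_unique {u v v' : P.V} {l : List (Option (ι × Bool) × P.V)} (h : Path P x u l v)
    (h' : Path P x u l v') : v = v' := by
  induction h with
  | nil u =>
    cases h'
    rfl
  | cons _ _ _ ih =>
    cases h' with
    | cons _ _ h2 => exact ih h2

/-- The second part of a path. -/
theorem tail_path {u v : P.V} (l : List (Option (ι × Bool) × P.V))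
    {m : List (Option (ι × Bool) × P.V)} (h : Path P x u (l ++ m) v) :
    ∃ w, Path P x u l w ∧ Path P x w m v := by
  induction l generalizing u with
  | nil => exact ⟨u, Path.nil u, h⟩
  | cons p l ih =>
    rw [List.cons_append] at h
    cases h with
    | cons he hc h2 =>
      obtain ⟨w, h3, h4⟩ := ih h2
      exact ⟨w, Path.cons he hc h3, h4⟩

/-- Of two paths of a deterministic program on the same input one is an initial part of the other. -/
theorem comparable (hD : DetA P) {u v : P.V} {l : List (Option (ι × Bool) × P.V)}
    (h : Path P x u l v) : ∀ {v' : P.V} {l' : List (Option (ι × Bool) × P.V)},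
      Path P x u l' v' → l <+: l' ∨ l' <+: l := by
  induction h with
  | nil u =>
    intro v' l' _
    exact Or.inl List.nil_prefix
  | @cons u v w a l he hc _ ih =>
    intro v' l' h'
    cases h' with
    | nil _ => exact Or.inr List.nil_prefix
    | @cons _ v1 _ a1 l1 he1 hc1 h1 =>
      rcases hD.2 u a v a1 v1 he he1 with ⟨h2, h3⟩ | ⟨i, b, h2, h3⟩
      · subst h2
        subst h3
        rcases ih h1 with h4 | h4
        · exact Or.inl (List.cons_prefix_cons.2 ⟨rfl, h4⟩)
        · exact Or.inr (List.cons_prefix_cons.2 ⟨rfl, h4⟩)
      · exfalso
        have h4 := hc i b h2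
        have h5 := hc1 i (!b) h3
        rw [h4] at h5
        cases b <;> simp at h5

/-- An accepting path of a deterministic program which is an initial part of another accepting path is
this path. -/
theorem eq_of_acc (hD : DetA P) {u v v' : P.V} {l l' : List (Option (ι × Bool) × P.V)}
    (hv : P.acc v) (h : Path P x u l v) (h' : Path P x u l' v') (hl : l <+: l') : l = l' := by
  obtain ⟨m, rfl⟩ := hl
  obtain ⟨w, h1, h2⟩ := tail_path l h'
  have h3 := fin_unique h h1
  subst h3
  cases h2 with
  | nil _ => rw [List.append_nil]
  | cons he _ _ => exact absurd he (hD.1 _ _ _ hv)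

end DetU

open DetU in
theorem tDetU : S_DetU := by
  intro ι P hD x
  constructor
  · intro l l' v v' hv hv' h h'
    rcases comparable hD h h' with h1 | h1
    · exact eq_of_acc hD hv h h' h1
    · exact (eq_of_acc hD hv' h' h h1).symm
  · intro u v l l' h h'
    exact comparable hD h h'

end SRBP
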