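import Pool.Agent.Lib.MP_9dcf40_lc.DU.ParU
import Pool.Agent.Lib.MP_9dcf40_lc.DU.SpecX

/-!
# Strongly unambiguous programs (MP_9dcf40_lc): the parity of many blocks, exponentially small advantage
-/

namespace SRBP

open Finset

namespace EndX

open RBP.ParAux RBP.ParL AugU ParU

variable {κ ι : Type} {t n : ℕ}

/-! ## Abstract counting, relative form -/

/-- The product of the signs. -/
noncomputable def sgnG (g : (Fin n → Bool) → ℝ) (Y : Fin t → Fin n → Bool) : ℝ := ∏ j, g (Y j)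

theorem sgnG_abs (g : (Fin n → Bool) → ℝ) (hg : ∀ y, |g y| = 1) (Y : Fin t → Fin n → Bool) :
    |sgnG g Y| = 1 := by
  unfold sgnG
  rw [abs_prod]
  exact prod_eq_one (fun j _ => hg (Y j))

open scoped Classical in
theorem stepG (X : Finset (Fin t → Fin n → Bool)) (hv : (Fin t → Fin n → Bool) → Fin t → Prop)
    (g : (Fin n → Bool) → ℝ) (hg : ∀ y, |g y| = 1) (S : Finset (Fin t)) (j : Fin t) (α δ : ℝ)
    (hB : ∀ Y : Fin t → Fin n → Bool,
      |∑ u ∈ univ.filter (fun u : Fin n → Bool => Function.update Y j u ∈ X ∧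
        (∀ i ∈ S, hv (Function.update Y j u) i) ∧ ¬ hv (Function.update Y j u) j), g u| ≤
      ((univ.filter (fun u : Fin n → Bool => Function.update Y j u ∈ X ∧
        (∀ i ∈ S, hv (Function.update Y j u) i) ∧ ¬ hv (Function.update Y j u) j)).card : ℝ) * α +
        2 ^ n * δ) :
    |∑ Y ∈ (X.filter (fun Y => ∀ i ∈ S, hv Y i)).filter (fun Y => ¬ hv Y j), sgnG g Y| ≤
      ((X.filter (fun Y => ∀ i ∈ S, hv Y i)).filter (fun Y => ¬ hv Y j)).card * α +
      2 ^ (t * n) * δ := by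
  obtain ⟨W, hW⟩ : ∃ W, W = (X.filter (fun Y => ∀ i ∈ S, hv Y i)).filter (fun Y => ¬ hv Y j) := ⟨_, rfl⟩
  rw [← hW]
  have hmem : ∀ Y : Fin t → Fin n → Bool, ∀ u : Fin n → Bool, Function.update Y j u ∈ W ↔
      u ∈ univ.filter (fun u : Fin n → Bool => Function.update Y j u ∈ X ∧
        (∀ i ∈ S, hv (Function.update Y j u) i) ∧ ¬ hv (Function.update Y j u) j) := by
    intro Y u
    rw [hW, mem_filter, mem_filter, mem_filter]
    constructor
    · rintro ⟨⟨h1, h2⟩, h3⟩
      exact ⟨mem_univ _, h1, h2, h3⟩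
    · rintro ⟨-, h1, h2, h3⟩
      exact ⟨⟨h1, h2⟩, h3⟩
  obtain ⟨F, hF⟩ : ∃ F : (Fin t → Fin n → Bool) → ℝ, F = fun Y => if Y ∈ W then sgnG g Y else 0 :=
    ⟨_, rfl⟩
  have h1 : ∑ Y ∈ W, sgnG g Y = ∑ Y, F Y := by
    rw [hF, sum_ite_mem, univ_inter]
  have h1' : (W.card : ℝ) = ∑ Y, (if Y ∈ W then (1 : ℝ) else 0) := by
    rw [sum_ite_mem, univ_inter, sum_const, nsmul_eq_mul, mul_one]
  have h2 := upd_sum (n := n) j F
  have h2' := upd_sum (n := n) j (fun Y => if Y ∈ W then (1 : ℝ) else 0)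
  rw [← h1'] at h2'
  have h3 : ∀ Y : Fin t → Fin n → Bool, |∑ u : Fin n → Bool, F (Function.update Y j u)| ≤
      (∑ u : Fin n → Bool, (if Function.update Y j u ∈ W then (1 : ℝ) else 0)) * α + 2 ^ n * δ := by
    intro Y
    have h4 := hB Y
    have h6 := hmem Y
    obtain ⟨U, hU⟩ : ∃ U, U = univ.filter (fun u : Fin n → Bool => Function.update Y j u ∈ X ∧
        (∀ i ∈ S, hv (Function.update Y j u) i) ∧ ¬ hv (Function.update Y j u) j) := ⟨_, rfl⟩
    rw [← hU] at h4 h6
    have h5 : ∀ u : Fin n → Bool, F (Function.update Y j u) =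
        (∏ i ∈ univ.erase j, g (Y i)) * (if u ∈ U then g u else 0) := by
      intro u
      rw [hF]
      simp only
      by_cases h7 : u ∈ U
      · rw [if_pos ((h6 u).2 h7), if_pos h7]
        unfold sgnG
        rw [← mul_prod_erase univ _ (mem_univ j), Function.update_self, mul_comm]
        congr 1
        refine prod_congr rfl (fun i hi => ?_)
        rw [Function.update_of_ne (ne_of_mem_erase hi)]
      · rw [if_neg (fun h => h7 ((h6 u).1 h)), if_neg h7, mul_zero]
    have h8 : (∑ u : Fin n → Bool, (if Function.update Y j u ∈ W then (1 : ℝ) else 0)) = U.card := by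
      simp only [h6]
      rw [sum_ite_mem, univ_inter, sum_const, nsmul_eq_mul, mul_one]
    rw [sum_congr rfl (fun u _ => h5 u), ← mul_sum, abs_mul, abs_prod,
      prod_eq_one (fun i _ => hg (Y i)), one_mul, sum_ite_mem, univ_inter, h8]
    exact h4
  rw [h1]
  have h4 : (2 : ℝ) ^ n * |∑ Y, F Y| ≤ 2 ^ n * (W.card * α + 2 ^ (t * n) * δ) := by
    rw [← abs_of_pos (show (0 : ℝ) < 2 ^ n by positivity), ← abs_mul, ← h2,
      abs_of_pos (show (0 : ℝ) < 2 ^ n by positivity)]
    refine (abs_sum_le_sum_abs _ _).trans ?_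
    refine (sum_le_sum (fun Y _ => h3 Y)).trans ?_
    rw [sum_add_distrib, ← sum_mul, h2', sum_const, nsmul_eq_mul, card_univ, Fintype.card_fun,
      Fintype.card_fun, Fintype.card_bool, Fintype.card_fin, Fintype.card_fin, ← pow_mul,
      Nat.mul_comm n t]
    push_cast
    linarith
  exact le_of_mul_le_mul_left h4 (by positivity)

open scoped Classical in
theorem indG (X : Finset (Fin t → Fin n → Bool)) (hv : (Fin t → Fin n → Bool) → Fin t → Prop)
    (g : (Fin n → Bool) → ℝ) (hg : ∀ y, |g y| = 1) (a₀ : ℕ) (α δ : ℝ) (hα : 0 ≤ α) (hδ : 0 ≤ δ)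
    (ht : 1 ≤ t) (hhalf : ∀ Y ∈ X, 2 * (univ.filter (fun j => hv Y j)).card ≤ t)
    (hB : ∀ (S : Finset (Fin t)) (j : Fin t), S.card ≤ a₀ → ∀ Y : Fin t → Fin n → Bool,
      |∑ u ∈ univ.filter (fun u : Fin n → Bool => Function.update Y j u ∈ X ∧
        (∀ i ∈ S, hv (Function.update Y j u) i) ∧ ¬ hv (Function.update Y j u) j), g u| ≤
      ((univ.filter (fun u : Fin n → Bool => Function.update Y j u ∈ X ∧
        (∀ i ∈ S, hv (Function.update Y j u) i) ∧ ¬ hv (Function.update Y j u) j)).card : ℝ) * α +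
        2 ^ n * δ) :
    ∀ a ≤ a₀, ∃ S : Finset (Fin t), S.card ≤ a ∧
      2 ^ a * (X.filter (fun Y => ∀ i ∈ S, hv Y i)).card ≤ X.card ∧
      |∑ Y ∈ X, sgnG g Y| ≤
        |∑ Y ∈ X.filter (fun Y => ∀ i ∈ S, hv Y i), sgnG g Y| +
          a * (X.card * α + 2 ^ (t * n) * δ) := by
  intro a
  induction a with
  | zero =>
    intro _
    refine ⟨∅, le_rfl, ?_, ?_⟩
    · simp
    · simp
  | succ a ih =>
    intro ha
    obtain ⟨S, h1, h2, h3⟩ := ih (by omega)
    have hδ' : 0 ≤ (X.card : ℝ) * α + 2 ^ (t * n) * δ := by positivity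
    obtain ⟨Z, hZ⟩ : ∃ Z, Z = X.filter (fun Y => ∀ i ∈ S, hv Y i) := ⟨_, rfl⟩
    have hZs := stepG X hv g hg S
    have hZX : Z.card ≤ X.card := by
      rw [hZ]
      exact card_filter_le _ _
    rw [← hZ] at h2 h3 hZs
    obtain ⟨j, hj⟩ := half Z hv ht (fun Y hY => hhalf Y (by
      rw [hZ] at hY
      exact (mem_filter.1 hY).1))
    by_cases hjS : j ∈ S
    · have h4 : Z.filter (fun Y => hv Y j) = Z := by
        refine filter_true_of_mem (fun Y hY => ?_)
        rw [hZ] at hY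
        exact (mem_filter.1 hY).2 j hjS
      rw [h4] at hj
      have h5 : Z.card = 0 := by omega
      refine ⟨S, by omega, ?_, ?_⟩
      · rw [← hZ, h5]
        omega
      · rw [← hZ]
        refine h3.trans ?_
        push_cast
        linarith
    · have h4 : X.filter (fun Y => ∀ i ∈ insert j S, hv Y i) = Z.filter (fun Y => hv Y j) := by
        rw [hZ]
        ext Y
        rw [mem_filter, mem_filter, mem_filter]
        simp only [mem_insert, forall_eq_or_imp]
        tauto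
      refine ⟨insert j S, ?_, ?_, ?_⟩
      · rw [card_insert_of_notMem hjS]
        omega
      · rw [h4, pow_succ]
        calc 2 ^ a * 2 * (Z.filter (fun Y => hv Y j)).card
            = 2 ^ a * (2 * (Z.filter (fun Y => hv Y j)).card) := by ring
          _ ≤ 2 ^ a * Z.card := Nat.mul_le_mul_left _ hj
          _ ≤ _ := h2
      · have h5 := hZs j α δ (hB S j (by omega))
        have h6 : ∑ Y ∈ Z, sgnG g Y = ∑ Y ∈ Z.filter (fun Y => hv Y j), sgnG g Y +
            ∑ Y ∈ Z.filter (fun Y => ¬ hv Y j), sgnG g Y :=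
          (sum_filter_add_sum_filter_not _ _ _).symm
        have h8 : ((Z.filter (fun Y => ¬ hv Y j)).card : ℝ) * α ≤ X.card * α := by
          refine mul_le_mul_of_nonneg_right ?_ hα
          exact_mod_cast (card_filter_le _ _).trans hZX
        have h7 : |∑ Y ∈ Z, sgnG g Y| ≤
            |∑ Y ∈ Z.filter (fun Y => hv Y j), sgnG g Y| + (X.card * α + 2 ^ (t * n) * δ) := by
          rw [h6]
          refine (abs_add_le _ _).trans ?_
          linarith
        rw [h4]
        push_cast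
        linarith

open scoped Classical in
theorem sumG (X : Finset (Fin t → Fin n → Bool)) (hv : (Fin t → Fin n → Bool) → Fin t → Prop)
    (g : (Fin n → Bool) → ℝ) (hg : ∀ y, |g y| = 1) (a : ℕ) (α δ : ℝ) (hα : 0 ≤ α) (hδ : 0 ≤ δ)
    (ht : 1 ≤ t) (hhalf : ∀ Y ∈ X, 2 * (univ.filter (fun j => hv Y j)).card ≤ t)
    (hB : ∀ (S : Finset (Fin t)) (j : Fin t), S.card ≤ a → ∀ Y : Fin t → Fin n → Bool,
      |∑ u ∈ univ.filter (fun u : Fin n → Bool => Function.update Y j u ∈ X ∧
        (∀ i ∈ S, hv (Function.update Y j u) i) ∧ ¬ hv (Function.update Y j u) j), g u| ≤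
      ((univ.filter (fun u : Fin n → Bool => Function.update Y j u ∈ X ∧
        (∀ i ∈ S, hv (Function.update Y j u) i) ∧ ¬ hv (Function.update Y j u) j)).card : ℝ) * α +
        2 ^ n * δ) :
    |∑ Y ∈ X, sgnG g Y| ≤ X.card * (1 / 2 ^ a + a * α) + a * (2 ^ (t * n) * δ) := by
  obtain ⟨S, -, h2, h3⟩ := indG X hv g hg a α δ hα hδ ht hhalf hB a le_rfl
  refine h3.trans ?_
  obtain ⟨Z, hZ⟩ : ∃ Z, Z = X.filter (fun Y => ∀ i ∈ S, hv Y i) := ⟨_, rfl⟩
  rw [← hZ] at h2 ⊢
  have h4 : |∑ Y ∈ Z, sgnG g Y| ≤ Z.card := by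
    refine (abs_sum_le_sum_abs _ _).trans ?_
    rw [sum_congr rfl (fun Y _ => sgnG_abs g hg Y), sum_const, nsmul_eq_mul, mul_one]
  have h5 : (Z.card : ℝ) ≤ X.card * (1 / 2 ^ a) := by
    rw [mul_one_div, le_div_iff₀ (by positivity), mul_comm]
    exact_mod_cast h2
  have h6 : (X.card : ℝ) * (1 / 2 ^ a + a * α) + a * (2 ^ (t * n) * δ) =
      X.card * (1 / 2 ^ a) + a * (X.card * α + 2 ^ (t * n) * δ) := by ring
  linarith

/-! ## The sum over the accepted inputs -/

open scoped Classical in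
/-- The sum over the inputs accepted with at most `T` tests. -/
theorem progsum (hR : S_ResU) (hL : S_LenU) (P : NBP (κ ⊕ Fin t × Fin n)) (hP : SUnamb P) (c : κ → Bool)
    (g : (Fin n → Bool) → ℝ) (hg : ∀ y, |g y| = 1) (T L a : ℕ) (α δ : ℝ) (hα : 0 ≤ α) (hδ : 0 ≤ δ)
    (ht : 1 ≤ t) (hT : 2 * T ≤ t * (L + 1))
    (hB : ∀ P' : NBP (Fin n), SUnamb P' →
      Fintype.card P'.V ≤ Fintype.card P.V * ((Fintype.card P.V + 2) * (L + 2) ^ a) →
      |∑ u ∈ ShU P' L, g u| ≤ (ShU P' L).card * α + 2 ^ n * δ) :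
    |∑ Y ∈ univ.filter (fun Y : Fin t → Fin n → Bool => AccIn P T (inp c Y)), sgnG g Y| ≤
      (univ.filter (fun Y : Fin t → Fin n → Bool => AccIn P T (inp c Y))).card *
        (1 / 2 ^ a + a * α) + a * (2 ^ (t * n) * δ) := by
  refine sumG (univ.filter (fun Y : Fin t → Fin n → Bool => AccIn P T (inp c Y)))
    (fun Y j => ∃ l v, P.acc v ∧ Path P (inp c Y) P.start l v ∧ L < tl (blk j) l)
    g hg a α δ hα hδ ht ?_ ?_
  · intro Y hY
    obtain ⟨l, v, hv, hl, hlT⟩ := (mem_filter.1 hY).2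
    have h1 : univ.filter (fun j => ∃ l v, P.acc v ∧ Path P (inp c Y) P.start l v ∧
        L < tl (blk j) l) = univ.filter (fun j : Fin t => L < tl (blk (κ := κ) (n := n) j) l) := by
      refine filter_congr (fun j _ => ?_)
      constructor
      · rintro ⟨l', v', hv', hl', h2⟩
        rw [(hP _).1 l l' v v' hv hv' hl hl']
        exact h2
      · intro h2
        exact ⟨l, v, hv, hl, h2⟩
    rw [h1]
    exact heavyU l T L hlT hT
  · intro S j hS Y
    obtain ⟨P', hc', hu', hacc'⟩ := blockU hR P hP c Y j S (min T (Fintype.card P.V)) L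
    have h1 := hB P' hu' (by
      rw [hc']
      refine Nat.mul_le_mul_left _ (Nat.mul_le_mul ?_ ?_)
      · have := min_le_right T (Fintype.card P.V)
        omega
      · exact Nat.pow_le_pow_right (by omega) hS)
    have h2 : univ.filter (fun u : Fin n → Bool =>
        Function.update Y j u ∈ univ.filter (fun Y : Fin t → Fin n → Bool => AccIn P T (inp c Y)) ∧
        (∀ i ∈ S, ∃ l v, P.acc v ∧ Path P (inp c (Function.update Y j u)) P.start l v ∧
          L < tl (blk i) l) ∧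
        ¬ ∃ l v, P.acc v ∧ Path P (inp c (Function.update Y j u)) P.start l v ∧
          L < tl (blk j) l) = ShU P' L := by
      unfold ShU
      refine filter_congr (fun u _ => ?_)
      rw [hacc', mem_filter]
      constructor
      · rintro ⟨⟨-, l, v, hv, hl, hlT⟩, h3, h4⟩
        refine ⟨l, v, hv, hl, ?_, ?_, ?_⟩
        · have h5 := hL _ P hP _ l v hv hl
          have h6 : (l.filterMap Prod.fst).length ≤ l.length := List.length_filterMap_le _ _
          omega
        · intro i hi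
          obtain ⟨l', v', hv', hl', h5⟩ := h3 i hi
          rw [(hP _).1 l l' v v' hv hv' hl hl']
          exact h5
        · by_contra h5
          exact h4 ⟨l, v, hv, hl, by omega⟩
      · rintro ⟨l, v, hv, hl, h3, h4, h5⟩
        refine ⟨⟨mem_univ _, l, v, hv, hl, by omega⟩, ?_, ?_⟩
        · intro i hi
          exact ⟨l, v, hv, hl, h4 i hi⟩
        · rintro ⟨l', v', hv', hl', h6⟩
          rw [← (hP _).1 l l' v v' hv hv' hl hl'] at h6
          omega
    rw [h2]
    exact h1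

/-! ## Numbers -/

theorem powle (A₀ k : ℕ) (hk : 2 ≤ k) :
    ((4 * k : ℕ) : ℝ) ^ (A₀ * (4 * k)) ≤ (k : ℝ) ^ (12 * A₀ * k) := by
  have hk' : (2 : ℝ) ≤ k := by exact_mod_cast hk
  have h1 : ((4 * k : ℕ) : ℝ) ≤ (k : ℝ) ^ 3 := by
    push_cast
    have : (4 : ℝ) ≤ (k : ℝ) ^ 2 := by nlinarith
    nlinarith
  have h2 : ((4 * k : ℕ) : ℝ) ^ (A₀ * (4 * k)) ≤ ((k : ℝ) ^ 3) ^ (A₀ * (4 * k)) :=
    pow_le_pow_left₀ (by positivity) h1 _
  rw [← pow_mul] at h2
  have e : 3 * (A₀ * (4 * k)) = 12 * A₀ * k := by ring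
  rwa [e] at h2

/-- All the inequalities. `K = k^(A₀' k)`, `A = 12 A₀ + 12`. -/
theorem numbers (A₀ n k a : ℕ) (hn : 16 ≤ n) (hk : 2 ≤ k) (ha : 1 ≤ a)
    (h : (a : ℝ) ^ 2 * (k : ℝ) ^ ((12 * A₀ + 12) * k) * Real.log n ≤ n) (V : ℝ) (hV0 : 1 ≤ V)
    (hV : V < Real.exp (n / (a * (k : ℝ) ^ ((12 * A₀ + 12) * k)))) :
    ((2 * a + 2 : ℕ) : ℝ) * ((4 * k : ℕ) : ℝ) ^ (A₀ * (4 * k)) ≤ n ∧
    V * ((V + 2) * (4 * k * n + 2) ^ (a + 1)) <
      Real.exp (n / (((2 * a + 2 : ℕ) : ℝ) * ((4 * k : ℕ) : ℝ) ^ (A₀ * (4 * k)))) ∧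
    ((a + 1 : ℕ) : ℝ) * Real.exp (-(n / ((4 * k : ℕ) : ℝ) ^ (A₀ * (4 * k)))) ≤
      Real.exp (-(n / (k : ℝ) ^ ((12 * A₀ + 12) * k))) ∧
    Real.exp (-(n / (k : ℝ) ^ ((12 * A₀ + 12) * k))) < 1 / 2 ^ (a + 1) ∧
    (a : ℝ) * (k : ℝ) ^ ((12 * A₀ + 12) * k) ≤ n := by
  have hn' : (16 : ℝ) ≤ n := by exact_mod_cast hn
  have hn0 : (0 : ℝ) < n := by linarith
  have hk' : (2 : ℝ) ≤ k := by exact_mod_cast hk
  have hk1 : (1 : ℝ) ≤ k := by linarith
  have ha' : (1 : ℝ) ≤ a := by exact_mod_cast ha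
  obtain ⟨K0, hK0⟩ : ∃ K0 : ℝ, K0 = (k : ℝ) ^ (12 * A₀ * k) := ⟨_, rfl⟩
  obtain ⟨K', hK'⟩ : ∃ K' : ℝ, K' = ((4 * k : ℕ) : ℝ) ^ (A₀ * (4 * k)) := ⟨_, rfl⟩
  obtain ⟨K, hK⟩ : ∃ K : ℝ, K = (k : ℝ) ^ ((12 * A₀ + 12) * k) := ⟨_, rfl⟩
  rw [← hK] at h hV ⊢
  rw [← hK']
  have hK'K0 : K' ≤ K0 := by
    rw [hK', hK0]
    exact powle A₀ k hk
  have hK'pos : 0 < K' := by
    rw [hK']
    positivity
  have hK01 : 1 ≤ K0 := by
    rw [hK0]
    exact one_le_pow₀ hk1
  have hKK0 : 4096 * K0 ≤ K := by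
    rw [hK, hK0]
    have e : (12 * A₀ + 12) * k = 12 * A₀ * k + 12 * k := by ring
    rw [e, pow_add, mul_comm]
    refine mul_le_mul_of_nonneg_left ?_ (by positivity)
    calc (4096 : ℝ) = 2 ^ 12 := by norm_num
      _ ≤ (k : ℝ) ^ 12 := pow_le_pow_left₀ (by norm_num) hk' 12
      _ ≤ (k : ℝ) ^ (12 * k) := pow_le_pow_right₀ hk1 (by omega)
  have hKpos : 0 < K := by linarith
  have hlog2 : (0.6931471803 : ℝ) < Real.log 2 := Real.log_two_gt_d9
  have hlog2' : Real.log 2 < (0.6931471808 : ℝ) := Real.log_two_lt_d9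
  have hlogn : 4 * Real.log 2 ≤ Real.log n := by
    have h1 : Real.log (16 : ℝ) ≤ Real.log n := Real.log_le_log (by norm_num) hn'
    have h2 : Real.log (16 : ℝ) = 4 * Real.log 2 := by
      rw [show (16 : ℝ) = 2 ^ 4 by norm_num, Real.log_pow]
      norm_num
    linarith
  have hlogn1 : 2 ≤ Real.log n := by linarith
  obtain ⟨E, hE⟩ : ∃ E : ℝ, E = n / (a * K) := ⟨_, rfl⟩
  rw [← hE] at hV
  have haK : 0 < a * K := by positivity
  have hEa : (a : ℝ) * Real.log n ≤ E := by
    rw [hE, le_div_iff₀ haK]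
    calc (a : ℝ) * Real.log n * (a * K) = (a : ℝ) ^ 2 * K * Real.log n := by ring
      _ ≤ n := h
  have hE2 : 2 ≤ E := by nlinarith
  -- `x = n / K`
  obtain ⟨x, hx⟩ : ∃ x : ℝ, x = n / K := ⟨_, rfl⟩
  have hxE : x = a * E := by
    rw [hx, hE]
    field_simp
  have hxa : (a : ℝ) * (a * Real.log n) ≤ x := by
    rw [hxE]
    exact mul_le_mul_of_nonneg_left hEa (by linarith)
  have hxa2 : 2 * (a : ℝ) ≤ x := by nlinarith
  refine ⟨?_, ?_, ?_, ?_, ?_⟩
  · -- N1
    have h1 : ((2 * a + 2 : ℕ) : ℝ) ≤ 4 * a := by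
      push_cast
      linarith
    have h2 : ((2 * a + 2 : ℕ) : ℝ) * K' ≤ 4 * a * K0 :=
      mul_le_mul h1 hK'K0 hK'pos.le (by positivity)
    have h3 : 4 * (a : ℝ) * K0 ≤ a * K := by nlinarith
    have h4 : (a : ℝ) * K ≤ n := by
      have h5 : (a : ℝ) * K ≤ a ^ 2 * K * Real.log n := by
        have h6 : (a : ℝ) ≤ a ^ 2 * Real.log n := by nlinarith
        nlinarith
      linarith
    linarith
  · -- N2
    obtain ⟨E'', hE''⟩ : ∃ E'' : ℝ, E'' = n / (((2 * a + 2 : ℕ) : ℝ) * K') := ⟨_, rfl⟩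
    rw [← hE'']
    have h1 : 14 * E < E'' := by
      rw [hE'', lt_div_iff₀ (by positivity), hE]
      have h2 : ((2 * a + 2 : ℕ) : ℝ) * K' ≤ 4 * a * K0 := by
        refine mul_le_mul ?_ hK'K0 hK'pos.le (by positivity)
        push_cast
        linarith
      have h3 : 14 * (n / (a * K)) * (((2 * a + 2 : ℕ) : ℝ) * K') ≤ 14 * (n / (a * K)) * (4 * a * K0) :=
        mul_le_mul_of_nonneg_left h2 (by positivity)
      refine lt_of_le_of_lt h3 ?_
      have h4 : 14 * ((n : ℝ) / (a * K)) * (4 * a * K0) = n * (56 * K0 / K) := by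
        field_simp
        ring
      rw [h4]
      have h5 : 56 * K0 / K < 1 := by
        rw [div_lt_one hKpos]
        linarith
      nlinarith
    have hkn : (k : ℝ) ≤ n := by
      have h2 : (k : ℝ) ≤ K := by
        rw [hK]
        calc (k : ℝ) = (k : ℝ) ^ 1 := (pow_one _).symm
          _ ≤ (k : ℝ) ^ ((12 * A₀ + 12) * k) := pow_le_pow_right₀ hk1 (by nlinarith)
      have h3 : (1 : ℝ) * K ≤ a ^ 2 * Real.log n * K := by
        refine mul_le_mul_of_nonneg_right ?_ hKpos.le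
        nlinarith
      linarith
    have h2 : (4 * (k : ℝ) * n + 2) ≤ (n : ℝ) ^ 3 := by
      have h3 : 4 * (k : ℝ) * n + 2 ≤ 4 * (n * n) + 2 := by nlinarith
      have h4 : (16 : ℝ) * (n * n) ≤ n * (n * n) := mul_le_mul_of_nonneg_right hn' (by positivity)
      have h5 : (256 : ℝ) ≤ n * n := by nlinarith
      have h6 : (n : ℝ) ^ 3 = n * (n * n) := by ring
      rw [h6]
      linarith
    have h3 : (4 * (k : ℝ) * n + 2) ^ (a + 1) ≤ Real.exp (6 * E) := by
      calc (4 * (k : ℝ) * n + 2) ^ (a + 1) ≤ ((n : ℝ) ^ 3) ^ (a + 1) :=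
            pow_le_pow_left₀ (by positivity) h2 _
        _ = Real.exp (Real.log n * (3 * (a + 1) : ℕ)) := by
            rw [← pow_mul, ← Real.rpow_natCast, Real.rpow_def_of_pos hn0]
        _ ≤ Real.exp (6 * E) := by
            refine Real.exp_le_exp.2 ?_
            push_cast
            nlinarith
    have h4 : V + 2 ≤ 3 * Real.exp E := by
      have : (1 : ℝ) ≤ Real.exp E := Real.one_le_exp (by linarith)
      linarith
    have h5 : (3 : ℝ) ≤ Real.exp E := by
      have := Real.add_one_le_exp E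
      linarith
    have hexp : 0 < Real.exp E := Real.exp_pos E
    calc V * ((V + 2) * (4 * k * n + 2) ^ (a + 1)) ≤
          Real.exp E * ((Real.exp E * Real.exp E) * Real.exp (6 * E)) := by
          refine mul_le_mul hV.le (mul_le_mul ?_ h3 (by positivity) (by positivity)) (by positivity)
            (by positivity)
          nlinarith
      _ = Real.exp (9 * E) := by
          rw [← Real.exp_add, ← Real.exp_add, ← Real.exp_add]
          congr 1
          ring
      _ < Real.exp E'' := Real.exp_lt_exp.2 (by linarith)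
  · -- N3
    have h1 : 2 * x ≤ n / K' := by
      rw [hx, le_div_iff₀ hK'pos]
      have h2 : 2 * ((n : ℝ) / K) * K' ≤ 2 * (n / K) * K0 :=
        mul_le_mul_of_nonneg_left hK'K0 (by positivity)
      refine h2.trans ?_
      have h3 : 2 * ((n : ℝ) / K) * K0 = n * (2 * K0 / K) := by
        field_simp
      rw [h3]
      have h5 : 2 * K0 / K ≤ 1 := by
        rw [div_le_one hKpos]
        linarith
      nlinarith
    have h2 : ((a + 1 : ℕ) : ℝ) ≤ Real.exp x := by
      have := Real.add_one_le_exp x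
      push_cast
      linarith
    rw [← hx]
    calc ((a + 1 : ℕ) : ℝ) * Real.exp (-(n / K')) ≤ Real.exp x * Real.exp (-(2 * x)) := by
          refine mul_le_mul h2 (Real.exp_le_exp.2 (by linarith)) (Real.exp_pos _).le (Real.exp_pos _).le
      _ = Real.exp (-x) := by
          rw [← Real.exp_add]
          congr 1
          ring
  · -- N4
    rw [← hx, Real.exp_neg, ← one_div]
    refine one_div_lt_one_div_of_lt (by positivity) ?_
    have h1 : (2 : ℝ) ^ (a + 1) = Real.exp (Real.log 2 * (a + 1 : ℕ)) := by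
      rw [← Real.rpow_natCast, Real.rpow_def_of_pos (by norm_num : (0 : ℝ) < 2)]
    rw [h1]
    refine Real.exp_lt_exp.2 ?_
    push_cast
    nlinarith
  · -- N5
    have h5 : (a : ℝ) * K ≤ a ^ 2 * K * Real.log n := by
      have h6 : (a : ℝ) ≤ a ^ 2 * Real.log n := by nlinarith
      nlinarith
    linarith

/-! ## The parts -/

open scoped Classical in
theorem chi_abs (f : (Fin n → Bool) → Prop) (y : Fin n → Bool) : |chi f y| = 1 := by
  unfold chi
  split_ifs <;> simp

open scoped Classical in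
theorem part1 (A₀ A m : ℕ) (hA : A₀ ≤ A) (f : (Fin n → Bool) → Prop) (c : CBits n m → Bool)
    (h : TopX A₀ n f) (hval : ∀ y, Val n m c y ↔ f y) : PartX1 A n m c := by
  intro k a hk ha hkn P hP hV
  have hk1 : (1 : ℝ) ≤ k := by
    have : (2 : ℝ) ≤ k := by exact_mod_cast hk
    linarith
  have ha0 : (0 : ℝ) < a := by exact_mod_cast ha
  have hle : (k : ℝ) ^ (A₀ * k) ≤ (k : ℝ) ^ (A * k) :=
    pow_le_pow_right₀ hk1 (Nat.mul_le_mul_right k hA)
  have hpos : (0 : ℝ) < (k : ℝ) ^ (A₀ * k) := by positivity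
  have hn0 : (0 : ℝ) ≤ n := Nat.cast_nonneg n
  have hle2 : (a : ℝ) * (k : ℝ) ^ (A₀ * k) ≤ a * (k : ℝ) ^ (A * k) :=
    mul_le_mul_of_nonneg_left hle ha0.le
  have h1 := h k a hk ha (hle2.trans hkn) P hP (lt_of_lt_of_le hV (Real.exp_le_exp.2
    (div_le_div_of_nonneg_left hn0 (by positivity) hle2)))
  have h2 : ((ShU P (k * n)).card : ℝ) = Nat.card {y : Fin n → Bool // AccIn P (k * n) y} := by
    rw [Nat.card_eq_fintype_card, Fintype.card_subtype]
    rfl
  have h3 : ∑ y ∈ ShU P (k * n), chi f y =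
      (Nat.card {y : Fin n → Bool // AccIn P (k * n) y ∧ Val n m c y} : ℝ) -
        Nat.card {y : Fin n → Bool // AccIn P (k * n) y ∧ ¬ Val n m c y} := by
    have h4 : ∀ y ∈ ShU P (k * n), chi f y =
        (if Val n m c y then 1 else 0) - (if ¬ Val n m c y then 1 else 0) := by
      intro y _
      unfold chi
      by_cases hv : Val n m c y
      · rw [if_pos ((hval y).1 hv), if_pos hv, if_neg (not_not.2 hv)]
        norm_num
      · rw [if_neg (fun h => hv ((hval y).2 h)), if_neg hv, if_pos hv]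
        norm_num
    rw [sum_congr rfl h4, sum_sub_distrib, sum_boole, sum_boole]
    congr 2
    · rw [Nat.card_eq_fintype_card, Fintype.card_subtype]
      unfold ShU
      rw [filter_filter]
    · rw [Nat.card_eq_fintype_card, Fintype.card_subtype]
      unfold ShU
      rw [filter_filter]
  rw [h3, h2] at h1
  refine h1.trans ?_
  have h5 : Real.exp (-(n / (k : ℝ) ^ (A₀ * k))) ≤ Real.exp (-(n / (k : ℝ) ^ (A * k))) := by
    refine Real.exp_le_exp.2 (neg_le_neg ?_)
    exact div_le_div_of_nonneg_left hn0 hpos hle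
  have h6 : (2 : ℝ) ^ n * Real.exp (-(n / (k : ℝ) ^ (A₀ * k))) ≤
      2 ^ n * Real.exp (-(n / (k : ℝ) ^ (A * k))) := mul_le_mul_of_nonneg_left h5 (by positivity)
  linarith

open scoped Classical in
theorem sgnG_chi (f : (Fin n → Bool) → Prop) (Y : Fin t → Fin n → Bool) :
    sgnG (chi f) Y = (-1) ^ t * (if Odd (univ.filter (fun j => f (Y j))).card then -1 else 1) := by
  unfold sgnG
  have h1 : ∀ s : Finset (Fin t), ∏ j ∈ s, chi f (Y j) =
      (-1) ^ s.card * (if Odd (s.filter (fun j => f (Y j))).card then -1 else 1) := by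
    intro s
    induction s using Finset.induction_on with
    | empty => simp
    | insert j s hj ih =>
      rw [prod_insert hj, ih, filter_insert, card_insert_of_notMem hj, pow_succ]
      unfold chi
      by_cases hq : f (Y j)
      · rw [if_pos hq, if_pos hq, card_insert_of_notMem (fun h => hj (mem_filter.1 h).1)]
        by_cases ho : Odd (s.filter (fun j => f (Y j))).card
        · have h2 : ¬ Odd ((s.filter (fun j => f (Y j))).card + 1) := by
            rw [Nat.not_odd_iff_even]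
            exact ho.add_one
          rw [if_pos ho, if_neg h2]
          ring
        · have h2 : Odd ((s.filter (fun j => f (Y j))).card + 1) := by
            rw [Nat.not_odd_iff_even] at ho
            exact ho.add_one
          rw [if_neg ho, if_pos h2]
          ring
      · rw [if_neg hq, if_neg hq]
        ring
  rw [h1 univ, card_univ, Fintype.card_fin]

open scoped Classical in
theorem oddval (m : ℕ) (f : (Fin n → Bool) → Prop) (c : CBits n m → Bool)
    (hval : ∀ y, Val n m c y ↔ f y) (Y : Fin t → Fin n → Bool) :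
    RBP.OddVal n m t (inp c Y) ↔ Odd (univ.filter (fun j => f (Y j))).card := by
  unfold RBP.OddVal
  rw [Nat.card_eq_fintype_card, Fintype.card_subtype]
  have : univ.filter (fun j => f (Y j)) = univ.filter (fun j => Val n m
      (fun a => inp c Y (Sum.inl a)) (fun i => inp c Y (Sum.inr (j, i)))) := by
    refine filter_congr (fun j _ => ?_)
    exact (hval (Y j)).symm
  rw [this]

theorem card_curry (m : ℕ) (c : CBits n m → Bool) (R : (CBits n m ⊕ Fin t × Fin n → Bool) → Prop)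
    [DecidablePred fun Y : Fin t → Fin n → Bool => R (inp c Y)] :
    (Nat.card {Y : Fin t × Fin n → Bool // R (Sum.elim c Y)}) =
      ((univ : Finset (Fin t → Fin n → Bool)).filter (fun Y => R (inp c Y))).card := by
  rw [← Fintype.card_subtype, ← Nat.card_eq_fintype_card]
  refine Nat.card_congr ⟨fun Y => ⟨fun j i => Y.1 (j, i), Y.2⟩,
    fun Y => ⟨fun p => Y.1 p.1 p.2, Y.2⟩, fun Y => rfl, fun Y => rfl⟩

open scoped Classical in
theorem part2 (hR : S_ResU) (hL : S_LenU) (A₀ m : ℕ) (hn : 16 ≤ n)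
    (f : (Fin n → Bool) → Prop) (c : CBits n m → Bool)
    (h : TopX A₀ n f) (hval : ∀ y, Val n m c y ↔ f y) : PartX2 (12 * A₀ + 12) n m c := by
  intro k a hk ha hkn t T ht hT P hP hV
  have hn0 : (0 : ℝ) < n := by
    have : (16 : ℝ) ≤ n := by exact_mod_cast hn
    linarith
  have ht1 : 1 ≤ t := by
    rcases Nat.eq_zero_or_pos t with h0 | h0
    · subst h0
      have h5 : 0 < Fintype.card (CBits n m) :=
        Fintype.card_pos_iff.2 ⟨Sum.inr ⟨0, by omega⟩⟩
      omega
    · exact h0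
  have hcard : Fintype.card (CBits n m ⊕ Fin t × Fin n) ≤ 2 * (t * n) := by
    rw [Fintype.card_sum, Fintype.card_prod, Fintype.card_fin, Fintype.card_fin]
    omega
  have hTL : 2 * T ≤ t * (4 * k * n + 1) := by
    rw [hT]
    have h1 := Nat.mul_le_mul_left k hcard
    nlinarith
  have hVne : (1 : ℝ) ≤ Fintype.card P.V := by
    have : 0 < Fintype.card P.V := Fintype.card_pos_iff.2 ⟨P.start⟩
    exact_mod_cast this
  obtain ⟨n1, n2, n3, -, -⟩ := numbers A₀ n k a hn hk ha hkn _ hVne hV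
  have hmain := progsum hR hL P hP c (chi f) (chi_abs f) T (4 * k * n) (a + 1) (1 / 2 ^ (2 * a + 2))
    (Real.exp (-(n / ((4 * k : ℕ) : ℝ) ^ (A₀ * (4 * k))))) (by positivity) (Real.exp_pos _).le ht1 hTL (by
      intro P' hP' hc'
      have h1 := h (4 * k) (2 * a + 2) (by omega) (by omega) n1 P' hP' (by
        refine lt_of_le_of_lt ?_ n2
        have h2 : (Fintype.card P'.V : ℝ) ≤ ((Fintype.card P.V * ((Fintype.card P.V + 2) *
            (4 * k * n + 2) ^ (a + 1)) : ℕ) : ℝ) := by exact_mod_cast hc'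
        refine h2.trans (le_of_eq ?_)
        push_cast
        ring)
      rw [mul_one_div]
      exact h1)
  -- the counts
  have hX : (Nat.card {Y : Fin t × Fin n → Bool // AccIn P T (Sum.elim c Y)}) =
      (univ.filter (fun Y : Fin t → Fin n → Bool => AccIn P T (inp c Y))).card :=
    card_curry m c (fun z => AccIn P T z)
  have hX1 : (Nat.card {Y : Fin t × Fin n → Bool //
      AccIn P T (Sum.elim c Y) ∧ RBP.OddVal n m t (Sum.elim c Y)}) =
      (univ.filter (fun Y : Fin t → Fin n → Bool =>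
        AccIn P T (inp c Y) ∧ RBP.OddVal n m t (inp c Y))).card :=
    card_curry m c (fun z => AccIn P T z ∧ RBP.OddVal n m t z)
  have hX2 : (Nat.card {Y : Fin t × Fin n → Bool //
      AccIn P T (Sum.elim c Y) ∧ ¬ RBP.OddVal n m t (Sum.elim c Y)}) =
      (univ.filter (fun Y : Fin t → Fin n → Bool =>
        AccIn P T (inp c Y) ∧ ¬ RBP.OddVal n m t (inp c Y))).card :=
    card_curry m c (fun z => AccIn P T z ∧ ¬ RBP.OddVal n m t z)
  have hsum : ∑ Y ∈ univ.filter (fun Y : Fin t → Fin n → Bool => AccIn P T (inp c Y)),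
      sgnG (chi f) Y = (-1) ^ t * (((univ.filter (fun Y : Fin t → Fin n → Bool =>
        AccIn P T (inp c Y) ∧ ¬ RBP.OddVal n m t (inp c Y))).card : ℝ) -
        (univ.filter (fun Y : Fin t → Fin n → Bool =>
        AccIn P T (inp c Y) ∧ RBP.OddVal n m t (inp c Y))).card) := by
    have h4 : ∀ Y ∈ univ.filter (fun Y : Fin t → Fin n → Bool => AccIn P T (inp c Y)),
        sgnG (chi f) Y = (-1) ^ t * ((if ¬ RBP.OddVal n m t (inp c Y) then 1 else 0) -
          (if RBP.OddVal n m t (inp c Y) then 1 else 0)) := by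
      intro Y _
      rw [sgnG_chi]
      congr 1
      have h5 := oddval m f c hval Y
      by_cases ho : RBP.OddVal n m t (inp c Y)
      · rw [if_pos (h5.1 ho), if_pos ho, if_neg (not_not.2 ho)]
        norm_num
      · rw [if_neg (fun h => ho (h5.2 h)), if_neg ho, if_pos ho]
        norm_num
    rw [sum_congr rfl h4, ← mul_sum, sum_sub_distrib, sum_boole, sum_boole]
    rw [filter_filter, filter_filter]
  rw [hsum, abs_mul, abs_pow, abs_neg, abs_one, one_pow, one_mul, abs_sub_comm] at hmain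
  rw [hX, hX1, hX2]
  refine hmain.trans ?_
  obtain ⟨X, hXX⟩ : ∃ X : ℝ, X = ((univ.filter (fun Y : Fin t → Fin n → Bool =>
    AccIn P T (inp c Y))).card : ℝ) := ⟨_, rfl⟩
  rw [← hXX]
  have hX0 : 0 ≤ X := by
    rw [hXX]
    positivity
  have h6 : (1 : ℝ) / 2 ^ (a + 1) + ((a + 1 : ℕ) : ℝ) * (1 / 2 ^ (2 * a + 2)) ≤ 1 / 2 ^ a := by
    have h7 : ((a + 1 : ℕ) : ℝ) ≤ 2 ^ (a + 1) := by
      exact_mod_cast (Nat.lt_two_pow_self (n := a + 1)).le
    have h8 : ((a + 1 : ℕ) : ℝ) * (1 / 2 ^ (2 * a + 2)) ≤ 2 ^ (a + 1) * (1 / 2 ^ (2 * a + 2)) :=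
      mul_le_mul_of_nonneg_right h7 (by positivity)
    have h9 : (2 : ℝ) ^ (a + 1) * (1 / 2 ^ (2 * a + 2)) = 1 / 2 ^ (a + 1) := by
      rw [mul_one_div, div_eq_div_iff (by positivity) (by positivity)]
      ring
    have h10 : (1 : ℝ) / 2 ^ a = 1 / 2 ^ (a + 1) + 1 / 2 ^ (a + 1) := by
      rw [pow_succ]
      field_simp
      norm_num
    linarith
  have h7 : X * (1 / 2 ^ (a + 1) + ((a + 1 : ℕ) : ℝ) * (1 / 2 ^ (2 * a + 2))) ≤ X / 2 ^ a := by
    have h11 : X / 2 ^ a = X * (1 / 2 ^ a) := by rw [mul_one_div]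
    rw [h11]
    exact mul_le_mul_of_nonneg_left h6 hX0
  have h8 : ((a + 1 : ℕ) : ℝ) * (2 ^ (t * n) * Real.exp (-(n / ((4 * k : ℕ) : ℝ) ^ (A₀ * (4 * k))))) ≤
      2 ^ (t * n) * Real.exp (-(n / (k : ℝ) ^ ((12 * A₀ + 12) * k))) := by
    have h9 : ((a + 1 : ℕ) : ℝ) * (2 ^ (t * n) * Real.exp (-(n / ((4 * k : ℕ) : ℝ) ^ (A₀ * (4 * k))))) =
      2 ^ (t * n) * (((a + 1 : ℕ) : ℝ) * Real.exp (-(n / ((4 * k : ℕ) : ℝ) ^ (A₀ * (4 * k))))) := by ring
    rw [h9]
    exact mul_le_mul_of_nonneg_left n3 (by positivity)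
  linarith

open scoped Classical in
theorem part3 (A n m : ℕ) (hn : 16 ≤ n) (c : CBits n m → Bool)
    (h : PartX2 (12 * A + 12) n m c) : PartX3 (12 * A + 12) n m := by
  intro k a hk ha hkn t T ht hT I _ P w hw hw1 hun hdis hsz
  by_contra hno
  push Not at hno
  let R : I → (Fin t × Fin n → Bool) → Prop := fun i Y =>
    ∃ b : Bool, AccIn (P i b) T (Sum.elim c Y) ∧ (b = true ↔ RBP.OddVal n m t (Sum.elim c Y))
  have hn0 : (0 : ℝ) ≤ n := Nat.cast_nonneg n
  -- one program
  have one : ∀ i, (Nat.card {Y : Fin t × Fin n → Bool // R i Y} : ℝ) <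
      (1 / 2 + 1 / 2 ^ a) * 2 ^ (t * n) := by
    intro i
    have hb : ∀ b, _ := fun b => h k a hk ha hkn t T ht hT (P i b) (hun i b) (hsz i b)
    have hVne : (1 : ℝ) ≤ Fintype.card (P i true).V := by
      have : 0 < Fintype.card (P i true).V := Fintype.card_pos_iff.2 ⟨(P i true).start⟩
      exact_mod_cast this
    obtain ⟨-, -, -, n4, -⟩ := numbers A n k a hn hk ha hkn _ hVne (hsz i true)
    have c1 := hb true
    have c2 := hb false
    obtain ⟨E, hE⟩ : ∃ E : ℝ, E = Real.exp (-(n / (k : ℝ) ^ ((12 * A + 12) * k))) := ⟨_, rfl⟩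
    rw [← hE] at c1 c2 n4
    have e1 := Fintype.card_subtype (fun Y : Fin t × Fin n → Bool => AccIn (P i true) T (Sum.elim c Y))
    -- all as cards of finsets
    simp only [Nat.card_eq_fintype_card, Fintype.card_subtype] at c1 c2 ⊢
    obtain ⟨X, hX⟩ : ∃ X : Bool → Finset (Fin t × Fin n → Bool),
      X = fun b => univ.filter (fun Y => AccIn (P i b) T (Sum.elim c Y)) := ⟨_, rfl⟩
    obtain ⟨XO, hXO⟩ : ∃ X : Bool → Finset (Fin t × Fin n → Bool),
      X = fun b => univ.filter (fun Y => AccIn (P i b) T (Sum.elim c Y) ∧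
        RBP.OddVal n m t (Sum.elim c Y)) := ⟨_, rfl⟩
    obtain ⟨XE, hXE⟩ : ∃ X : Bool → Finset (Fin t × Fin n → Bool),
      X = fun b => univ.filter (fun Y => AccIn (P i b) T (Sum.elim c Y) ∧
        ¬ RBP.OddVal n m t (Sum.elim c Y)) := ⟨_, rfl⟩
    have hsplit : ∀ b, ((XO b).card : ℝ) + (XE b).card = (X b).card := by
      intro b
      have h1 : (XO b).card + (XE b).card = (X b).card := by
        rw [hXO, hXE, hX]
        simp only
        rw [← filter_filter, ← filter_filter]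
        exact card_filter_add_card_filter_not _
      exact_mod_cast h1
    have c1' : |((XO true).card : ℝ) - (XE true).card| ≤ (X true).card / 2 ^ a + 2 ^ (t * n) * E := by
      rw [hXO, hXE, hX]
      exact c1
    have c2' : |((XO false).card : ℝ) - (XE false).card| ≤ (X false).card / 2 ^ a + 2 ^ (t * n) * E := by
      rw [hXO, hXE, hX]
      exact c2
    have hsub : univ.filter (fun Y => R i Y) ⊆ XO true ∪ XE false := by
      intro Y hY
      obtain ⟨b, hb1, hb2⟩ := (mem_filter.1 hY).2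
      rw [hXO, hXE, mem_union, mem_filter, mem_filter]
      rcases b with _ | _
      · right
        exact ⟨mem_univ _, hb1, fun h => by simpa using hb2.2 h⟩
      · left
        exact ⟨mem_univ _, hb1, hb2.1 rfl⟩
    have h3 : (((univ.filter (fun Y => R i Y)).card : ℕ) : ℝ) ≤ (XO true).card + (XE false).card := by
      exact_mod_cast (card_le_card hsub).trans (card_union_le _ _)
    have h4 : ((X true).card : ℝ) + (X false).card ≤ 2 ^ (t * n) := by
      have h5 : Disjoint (X true) (X false) := by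
        rw [Finset.disjoint_left, hX]
        intro Y hY hY'
        exact hdis i T _ ⟨(mem_filter.1 hY).2, (mem_filter.1 hY').2⟩
      have h6 : (X true).card + (X false).card ≤ 2 ^ (t * n) := by
        rw [← card_union_of_disjoint h5]
        refine (card_le_univ _).trans ?_
        rw [Fintype.card_fun, Fintype.card_bool, Fintype.card_prod, Fintype.card_fin,
          Fintype.card_fin]
      exact_mod_cast h6
    have s1 := hsplit true
    have s2 := hsplit false
    have d1 := (abs_le.1 c1').2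
    have d2 := (abs_le.1 c2').1
    have hpow : (0 : ℝ) < 2 ^ (t * n) := by positivity
    have h5 : ((X true).card : ℝ) / 2 ^ a + (X false).card / 2 ^ a ≤ 2 ^ (t * n) / 2 ^ a := by
      rw [← add_div]
      exact div_le_div_of_nonneg_right h4 (by positivity)
    have h6 : (2 : ℝ) ^ (t * n) * E < 2 ^ (t * n) * (1 / 2 ^ (a + 1)) :=
      mul_lt_mul_of_pos_left n4 hpow
    have h7 : (2 : ℝ) ^ (t * n) * (1 / 2 ^ (a + 1)) = 2 ^ (t * n) / 2 ^ a / 2 := by
      rw [pow_succ]
      field_simp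
    have h8 : (1 / 2 + 1 / 2 ^ a) * (2 : ℝ) ^ (t * n) = 2 ^ (t * n) / 2 + 2 ^ (t * n) / 2 ^ a := by
      ring
    rw [h8]
    linarith
  -- the average
  have h5 : ∀ Y : Fin t × Fin n → Bool, 1 / 2 + 1 / (2 : ℝ) ^ a ≤ ∑ i, (if R i Y then w i else 0) := by
    intro Y
    obtain ⟨S, hS, hpS⟩ := hno (Sum.elim c Y)
    refine hpS.trans ?_
    calc ∑ i ∈ S, w i = ∑ i ∈ S, (if R i Y then w i else 0) := by
          refine sum_congr rfl (fun i hi => ?_)
          rw [if_pos (hS i hi)]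
      _ ≤ _ := by
          refine sum_le_univ_sum_of_nonneg (fun i => ?_)
          split_ifs
          · exact hw i
          · exact le_rfl
  have h6 : ∑ _Y : Fin t × Fin n → Bool, (1 / 2 + 1 / (2 : ℝ) ^ a) ≤
      ∑ Y : Fin t × Fin n → Bool, ∑ i, (if R i Y then w i else 0) :=
    sum_le_sum (fun Y _ => h5 Y)
  rw [sum_const, nsmul_eq_mul, card_univ, Fintype.card_fun, Fintype.card_bool, Fintype.card_prod,
    Fintype.card_fin, Fintype.card_fin, sum_comm] at h6
  have h7 : ∀ i, ∑ Y : Fin t × Fin n → Bool, (if R i Y then w i else 0) =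
      w i * (Nat.card {Y : Fin t × Fin n → Bool // R i Y} : ℝ) := by
    intro i
    rw [← sum_filter, sum_const, nsmul_eq_mul, mul_comm, Nat.card_eq_fintype_card,
      Fintype.card_subtype]
  simp only [h7] at h6
  have h8 : ∃ i, 0 < w i := by
    by_contra hno
    push Not at hno
    have : ∑ i, w i ≤ 0 := sum_nonpos (fun i _ => hno i)
    linarith
  obtain ⟨i₀, hi₀⟩ := h8
  have h9 : ∑ i, w i * (Nat.card {Y : Fin t × Fin n → Bool // R i Y} : ℝ) <
      ∑ i, w i * ((1 / 2 + 1 / 2 ^ a) * 2 ^ (t * n)) := by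
    refine sum_lt_sum (fun i _ => ?_) ⟨i₀, mem_univ _, ?_⟩
    · exact mul_le_mul_of_nonneg_left (one i).le (hw i)
    · exact mul_lt_mul_of_pos_left (one i₀) hi₀
  rw [← sum_mul, hw1, one_mul] at h9
  push_cast at h6
  linarith

end EndX

/-- ENDX. -/
theorem tEndX (hR : S_ResU) (hL : S_LenU) : S_EndX := by
  intro A₀ hA₀
  refine ⟨12 * A₀ + 12, 16, by omega, ?_⟩
  intro n hn m f c h hval
  have h2 := EndX.part2 hR hL A₀ m hn f c h hval
  exact ⟨EndX.part1 A₀ (12 * A₀ + 12) m (by omega) f c h hval, h2, EndX.part3 A₀ n m hn c h2⟩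

end SRBP
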