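import Pool.Agent.Lib.MP_9dcf40_lc.DU.SpecX
import Pool.Agent.Lib.MP_9dcf40_lc.DT.CirQ
import Pool.Agent.Lib.MP_9dcf40_lc.SR.Bridge
import Pool.Agent.Lib.MP_9dcf40_lc.SR.Gat
import Pool.Agent.Lib.MP_9dcf40_lc.SR.Mon
import Pool.Agent.Lib.MP_9dcf40_lc.SR.Xor

/-!
# The final statement (MP_9dcf40_lc) from `S_TopX` and `S_EndX`
-/

namespace SRBP

open Finset

theorem circX (n m : ℕ) (hn : 1 ≤ n) (hm : 7 * (n + 1) ^ 4 ≤ m) (c₀ : Coef n → Bool) :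
    ∃ c : CBits n m → Bool, ∀ y, Val n m c y ↔ quartic c₀ y = 1 := by
  obtain ⟨c, hc⟩ := cirQ_aux tGat (tMon tGat (tXor tGat)) n m c₀ (by
    have h4 := card_coef n
    have h5 : 1 ≤ (n + 1) ^ 4 := Nat.one_le_pow _ _ (by omega)
    omega)
  exact ⟨c, fun y => (val_iff n m c y).trans (hc y)⟩

theorem finX (h1 : S_TopX) (h2 : S_EndX) : ∃ A N : ℕ, 1 ≤ A ∧ ∀ n ≥ N, ∀ m ≥ 7 * (n + 1) ^ 4,
    ∃ c : CBits n m → Bool, PartX1 A n m c ∧ PartX2 A n m c ∧ PartX3 A n m := by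
  obtain ⟨A₀, N₀, hA₀, h1⟩ := h1
  obtain ⟨A, N, hA, h2⟩ := h2 A₀ hA₀
  refine ⟨A, max (max N₀ N) 1, le_trans hA₀ hA, fun n hn m hm => ?_⟩
  have hn0 : N₀ ≤ n := le_trans (le_max_left _ _) (le_trans (le_max_left _ _) hn)
  have hn1 : N ≤ n := le_trans (le_max_right _ _) (le_trans (le_max_left _ _) hn)
  have hn2 : 1 ≤ n := le_trans (le_max_right _ _) hn
  obtain ⟨c₀, hc₀⟩ := h1 n hn0
  obtain ⟨c, hc⟩ := circX n m hn2 hm c₀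
  exact ⟨c, h2 n hn1 m _ c hc₀ hc⟩

end SRBP
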