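import Pool.Agent.Lib.MP_9dcf40_lc.DU.SpecX

/-!
# Accepting paths of strongly unambiguous programs are short (MP_9dcf40_lc)
-/

namespace SRBP

namespace LenU

variable {ι : Type} {P : NBP ι} {x : ι → Bool}

/-- The rest of the path after a visit of `u`. -/
theorem rest {v w : P.V} {l : List (Option (ι × Bool) × P.V)} (h : Path P x v l w) (u : P.V)
    (hu : u ∈ v :: l.map Prod.snd) : ∃ l', Path P x u l' w ∧ l'.length ≤ l.length := by
  induction h with
  | nil v =>
    have h1 : u = v := by simpa using hu
    rw [h1]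
    exact ⟨[], Path.nil v, le_rfl⟩
  | cons e he hp ih =>
    rcases List.mem_cons.1 hu with h1 | h1
    · rw [h1]
      exact ⟨_, Path.cons e he hp, le_rfl⟩
    · obtain ⟨l', hl', hlen⟩ := ih h1
      exact ⟨l', hl', hlen.trans (Nat.le_succ _)⟩

/-- A path which visits a state twice can be shortened. -/
theorem shorten {u w : P.V} {l : List (Option (ι × Bool) × P.V)} (h : Path P x u l w)
    (hn : ¬ (u :: l.map Prod.snd).Nodup) : ∃ l', Path P x u l' w ∧ l'.length < l.length := by
  induction h with
  | nil u => exact absurd (List.nodup_singleton u) hn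
  | @cons u v w a l e he hp ih =>
    by_cases h1 : u ∈ v :: l.map Prod.snd
    · obtain ⟨l', hl', hlen⟩ := rest hp u h1
      exact ⟨l', hl', Nat.lt_succ_of_le hlen⟩
    · have h2 : ¬ (v :: l.map Prod.snd).Nodup := fun h3 => hn (List.nodup_cons.2 ⟨h1, h3⟩)
      obtain ⟨l', hl', hlen⟩ := ih h2
      exact ⟨_, Path.cons e he hl', Nat.succ_lt_succ hlen⟩

end LenU

theorem tLenU : S_LenU := by
  intro ι P hP x l v hv hl
  by_contra hc
  have h1 : ¬ (P.start :: l.map Prod.snd).Nodup := by
    intro h2
    have h3 := h2.length_le_card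
    rw [List.length_cons, List.length_map] at h3
    omega
  obtain ⟨l', hl', hlen⟩ := LenU.shorten hl h1
  have h4 := (hP x).1 l l' v v hv hv hl hl'
  rw [h4] at hlen
  exact absurd hlen (lt_irrefl _)

end SRBP
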