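import Pool.Agent.Lib.MP_9dcf40_lc.SR.Model

/-!
# Deterministic and strongly unambiguous branching programs (MP_9dcf40_lc): the definitions used in the
statement
-/

namespace SRBP

/-- `Path P x u l v`: a path from the state `u` to the state `v` on which the input `x` passes all tests;
`l` lists its edges (the label and the end of each edge). -/
inductive Path {ι : Type} (P : NBP ι) (x : ι → Bool) :
    P.V → List (Option (ι × Bool) × P.V) → P.V → Prop
  | nil (u : P.V) : Path P x u [] u
  | cons {u v w : P.V} {a : Option (ι × Bool)} {l : List (Option (ι × Bool) × P.V)} : P.edge u a v →
      (∀ i b, a = some (i, b) → x i = b) → Path P x v l w → Path P x u ((a, v) :: l) w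

/-- The program accepts the input `x` with at most `T` tests: some path from the start to an accepting state
on which `x` passes all tests has at most `T` tests. -/
def AccIn {ι : Type} (P : NBP ι) (T : ℕ) (x : ι → Bool) : Prop :=
  ∃ l v, P.acc v ∧ Path P x P.start l v ∧ (l.filterMap Prod.fst).length ≤ T

/-- The program is strongly unambiguous: each input has at most one accepting path, and, for each input, of
two paths with the same ends one is an initial part of the other. -/
def SUnamb {ι : Type} (P : NBP ι) : Prop := ∀ x : ι → Bool,
  (∀ l l' v v', P.acc v → P.acc v' → Path P x P.start l v → Path P x P.start l' v' → l = l') ∧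
  ∀ u v l l', Path P x u l v → Path P x u l' v → l <+: l' ∨ l' <+: l

/-- The program is deterministic: no edge leaves an accepting state, and two different edges which leave the
same state test the same variable, with different outcomes. -/
def DetA {ι : Type} (P : NBP ι) : Prop := (∀ u a v, P.acc u → ¬ P.edge u a v) ∧
  ∀ u a v a' v', P.edge u a v → P.edge u a' v' →
    (a = a' ∧ v = v') ∨ ∃ i b, a = some (i, b) ∧ a' = some (i, !b)

end SRBP
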