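import Pool.Agent.Lib.MP_9dcf40_lc.DU.Model
import Pool.Agent.Lib.MP_9dcf40_lc.DTR.Spec
import Pool.Agent.Lib.MP_9dcf40_lc.RD.TopH
import Pool.Agent.Lib.MP_9dcf40_lc.RD.Model2
import Pool.Agent.Lib.MP_9dcf40_lc.LIN.ModelT

/-!
# Strongly unambiguous programs, two-sided error (MP_9dcf40_lc): statements of the modules
-/

namespace SRBP

open Finset

open scoped Classical in
/-- The inputs accepted with at most `K` tests. -/
noncomputable def ShU {n : ℕ} (P : NBP (Fin n)) (K : ℕ) : Finset (Fin n → Bool) :=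
  univ.filter (fun y => AccIn P K y)

/-- DET: deterministic programs are strongly unambiguous. -/
def S_DetU : Prop := ∀ (ι : Type) (P : NBP ι), DetA P → SUnamb P

open scoped Classical in
/-- PROGU: `b` = the states at the cuts (right after the test number `j ℓ`, or at the end). -/
def S_ProgU : Prop := ∀ (n r ℓ K : ℕ) (P : NBP (Fin n)), SUnamb P → 1 ≤ r → K ≤ r * ℓ →
  ∃ (b : (Fin n → Bool) → Fin (r + 1) → P.V)
    (sg : Fin r → (Fin n → Bool) → (Fin n → Option Bool)) (dm : (Fin n → Option Bool) → Finset (Fin n)),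
    (∀ x ∈ ShU P K, ∀ j, (dm (sg j x)).card ≤ ℓ) ∧ (∀ x ∈ ShU P K, ∑ j, (dm (sg j x)).card ≤ K) ∧
    ∀ w : Fin (r + 1) → P.V, DPC n r ((ShU P K).filter (fun x => b x = w)) sg dm

/-- RESU: constants. `σ a = inl b`: the variable `a` has the value `b`; `σ a = inr i`: it is the variable `i`. -/
def S_ResU : Prop := ∀ (κ ι : Type) (P : NBP κ) (σ : κ → Bool ⊕ ι), SUnamb P →
  ∃ P' : NBP ι, Fintype.card P'.V = Fintype.card P.V ∧ SUnamb P' ∧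
    ∀ y T, AccIn P' T y ↔ ∃ l v, P.acc v ∧ Path P (fun a => Sum.elim id y (σ a)) P.start l v ∧
      ((l.filterMap Prod.fst).filter (fun q => (σ q.1).isRight)).length ≤ T

/-- TOPU: advantage `1 / h`. -/
def S_TopU : Prop := ∃ A N : ℕ, 1 ≤ A ∧ ∀ n ≥ N, ∀ c : Coef n → Bool, RBP.Good n c → ∀ k h : ℕ, 2 ≤ k →
  2 ≤ h → ((h * k ^ k : ℕ) : ℝ) ^ A ≤ n → ∀ P : NBP (Fin n), SUnamb P →
  (Fintype.card P.V : ℝ) < Real.exp (n / ((h * k ^ k : ℕ) : ℝ) ^ A) →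
  |∑ y ∈ ShU P (k * n), RBP.sgq c y| ≤
    (ShU P (k * n)).card / h + 2 ^ n * Real.exp (-(n / ((h * k ^ k : ℕ) : ℝ) ^ A))

/-- The weaker form with `(h k) ^ (A k)`. -/
def S_TopW : Prop := ∃ A N : ℕ, 1 ≤ A ∧ ∀ n ≥ N, ∀ c : Coef n → Bool, RBP.Good n c → ∀ k h : ℕ, 2 ≤ k →
  2 ≤ h → ((h * k : ℕ) : ℝ) ^ (A * k) ≤ n → ∀ P : NBP (Fin n), SUnamb P →
  (Fintype.card P.V : ℝ) < Real.exp (n / ((h * k : ℕ) : ℝ) ^ (A * k)) →
  |∑ y ∈ ShU P (k * n), RBP.sgq c y| ≤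
    (ShU P (k * n)).card / h + 2 ^ n * Real.exp (-(n / ((h * k : ℕ) : ℝ) ^ (A * k)))

/-- Part (1): one circuit, difference form. -/
def PartU1 (A n m : ℕ) (c : CBits n m → Bool) : Prop :=
  ∀ k h : ℕ, 2 ≤ k → 2 ≤ h → ((h * k ^ k : ℕ) : ℝ) ^ A ≤ n → ∀ P : NBP (Fin n), SUnamb P →
    (Fintype.card P.V : ℝ) < Real.exp (n / ((h * k ^ k : ℕ) : ℝ) ^ A) →
    |(Nat.card {y : Fin n → Bool // AccIn P (k * n) y ∧ Val n m c y} : ℝ) -
        Nat.card {y : Fin n → Bool // AccIn P (k * n) y ∧ ¬ Val n m c y}| ≤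
      (Nat.card {y : Fin n → Bool // AccIn P (k * n) y} : ℝ) / h +
        2 ^ n * Real.exp (-(n / ((h * k ^ k : ℕ) : ℝ) ^ A))

/-- Part (2): parity of the values on `t` random inputs; `P b` accepts the inputs for which the answer is `b`. -/
def PartU2 (A n m : ℕ) (c : CBits n m → Bool) : Prop :=
  ∀ k D : ℕ, 2 ≤ k → 2 ≤ D → ((D * k : ℕ) : ℝ) ^ (A * (D * k)) ≤ n →
    ∀ t : ℕ, Fintype.card (CBits n m) ≤ t * n → ∀ P : Bool → NBP (CBits n m ⊕ Fin t × Fin n),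
      (∀ b, SUnamb (P b)) → (∀ T z, ¬ (AccIn (P true) T z ∧ AccIn (P false) T z)) →
      (∀ b, (Fintype.card (P b).V : ℝ) < Real.exp (n / ((D * k : ℕ) : ℝ) ^ (A * (D * k)))) →
      (Nat.card {Y : Fin t × Fin n → Bool // ∃ b : Bool,
        AccIn (P b) (k * Fintype.card (CBits n m ⊕ Fin t × Fin n)) (Sum.elim c Y) ∧
          (b = true ↔ RBP.OddVal n m t (Sum.elim c Y))} : ℝ) < (1 / 2 + 1 / D) * 2 ^ (t * n)

/-- Part (3): randomised form of (2). -/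
def PartU3 (A n m : ℕ) : Prop :=
  ∀ k D : ℕ, 2 ≤ k → 2 ≤ D → ((D * k : ℕ) : ℝ) ^ (A * (D * k)) ≤ n →
    ∀ t : ℕ, Fintype.card (CBits n m) ≤ t * n →
    ∀ (I : Type) [Fintype I] (P : I → Bool → NBP (CBits n m ⊕ Fin t × Fin n)) (w : I → ℝ),
      (∀ i, 0 ≤ w i) → ∑ i, w i = 1 → (∀ i b, SUnamb (P i b)) →
      (∀ i T z, ¬ (AccIn (P i true) T z ∧ AccIn (P i false) T z)) →
      (∀ i b, (Fintype.card (P i b).V : ℝ) < Real.exp (n / ((D * k : ℕ) : ℝ) ^ (A * (D * k)))) →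
      ∃ z : CBits n m ⊕ Fin t × Fin n → Bool, ∀ S : Finset I,
        (∀ i ∈ S, ∃ b : Bool, AccIn (P i b) (k * Fintype.card (CBits n m ⊕ Fin t × Fin n)) z ∧
          (b = true ↔ RBP.OddVal n m t z)) → ∑ i ∈ S, w i < 1 / 2 + 1 / D

/-- Part (4): all values are `1`, one-sided. -/
def PartU4 (A n m : ℕ) (c : CBits n m → Bool) : Prop :=
  ∀ k : ℕ, 2 ≤ k → (k : ℝ) ^ (A * k) ≤ n → ∀ t : ℕ, Fintype.card (CBits n m) ≤ t * n →
    ∀ P : NBP (CBits n m ⊕ Fin t × Fin n), SUnamb P →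
      (∀ (T : ℕ) (Y : Fin t × Fin n → Bool), AccIn P T (Sum.elim c Y) → MVal n m t (Sum.elim c Y)) →
      (∀ Y : Fin t × Fin n → Bool, MVal n m t (Sum.elim c Y) →
        AccIn P (k * Fintype.card (CBits n m ⊕ Fin t × Fin n)) (Sum.elim c Y)) →
      Real.exp (n / (k : ℝ) ^ (A * k)) ≤ Fintype.card P.V

/-- END: parts (1)-(4) from TOPU / TOPW, for every circuit `c` which computes a good polynomial. -/
def S_EndU : Prop := S_TopU → ∃ A N : ℕ, 1 ≤ A ∧ ∀ n ≥ N, ∀ (m : ℕ) (c₀ : Coef n → Bool)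
  (c : CBits n m → Bool), RBP.Good n c₀ → (∀ y, Val n m c y ↔ quartic c₀ y = 1) → PartU1 A n m c

def S_EndW : Prop := S_TopW → ∃ A N : ℕ, 1 ≤ A ∧ ∀ n ≥ N, ∀ (m : ℕ) (c₀ : Coef n → Bool)
  (c : CBits n m → Bool), RBP.Good n c₀ → (∀ y, Val n m c y ↔ quartic c₀ y = 1) →
  2 ^ (n - 2) ≤ Nat.card {y // Val n m c y} → PartU2 A n m c ∧ PartU3 A n m ∧ PartU4 A n m c

end SRBP
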