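import Pool.Agent.Lib.MP_9dcf40_lc.DU.Aug
import Pool.Agent.Lib.MP_9dcf40_lc.DU.Spec
import Pool.Agent.Lib.MP_9dcf40_lc.RD.ParX

/-!
# Strongly unambiguous programs (MP_9dcf40_lc): the parity of many blocks, small advantage
-/

namespace SRBP

open Finset

namespace ParU

open RBP.ParAux RBP.ParL AugU

variable {κ ι : Type} {t n : ℕ}

/-! ## Abstract counting -/

open scoped Classical in
theorem stepA (X : Finset (Fin t → Fin n → Bool)) (hv : (Fin t → Fin n → Bool) → Fin t → Prop)
    (c₀ : Coef n → Bool) (S : Finset (Fin t)) (j : Fin t) (δ : ℝ)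
    (hB : ∀ Y : Fin t → Fin n → Bool,
      |∑ u ∈ univ.filter (fun u : Fin n → Bool => Function.update Y j u ∈ X ∧
        (∀ i ∈ S, hv (Function.update Y j u) i) ∧ ¬ hv (Function.update Y j u) j), RBP.sgq c₀ u| ≤
      2 ^ n * δ) :
    |∑ Y ∈ (X.filter (fun Y => ∀ i ∈ S, hv Y i)).filter (fun Y => ¬ hv Y j), sgn c₀ Y| ≤
      2 ^ (t * n) * δ := by
  obtain ⟨F, hF⟩ : ∃ F : (Fin t → Fin n → Bool) → ℝ, F = fun Y =>
      if Y ∈ (X.filter (fun Y => ∀ i ∈ S, hv Y i)).filter (fun Y => ¬ hv Y j) then sgn c₀ Y else 0 :=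
    ⟨_, rfl⟩
  have h1 : ∑ Y ∈ (X.filter (fun Y => ∀ i ∈ S, hv Y i)).filter (fun Y => ¬ hv Y j), sgn c₀ Y =
      ∑ Y, F Y := by
    rw [hF, sum_ite_mem, univ_inter]
  have h2 := upd_sum (n := n) j F
  have h3 : ∀ Y : Fin t → Fin n → Bool, |∑ u : Fin n → Bool, F (Function.update Y j u)| ≤ 2 ^ n * δ := by
    intro Y
    have h4 := hB Y
    obtain ⟨U, hU⟩ : ∃ U, U = univ.filter (fun u : Fin n → Bool => Function.update Y j u ∈ X ∧
        (∀ i ∈ S, hv (Function.update Y j u) i) ∧ ¬ hv (Function.update Y j u) j) := ⟨_, rfl⟩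
    rw [← hU] at h4
    have h5 : ∀ u : Fin n → Bool, F (Function.update Y j u) =
        (∏ i ∈ univ.erase j, RBP.sgq c₀ (Y i)) * (if u ∈ U then RBP.sgq c₀ u else 0) := by
      intro u
      have h6 : Function.update Y j u ∈
          (X.filter (fun Y => ∀ i ∈ S, hv Y i)).filter (fun Y => ¬ hv Y j) ↔ u ∈ U := by
        rw [mem_filter, mem_filter, hU, mem_filter]
        constructor
        · rintro ⟨⟨h1, h2⟩, h3⟩
          exact ⟨mem_univ _, h1, h2, h3⟩
        · rintro ⟨-, h1, h2, h3⟩
          exact ⟨⟨h1, h2⟩, h3⟩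
      rw [hF]
      simp only
      by_cases h7 : u ∈ U
      · rw [if_pos (h6.2 h7), if_pos h7]
        unfold sgn
        rw [← mul_prod_erase univ _ (mem_univ j), Function.update_self, mul_comm]
        congr 1
        refine prod_congr rfl (fun i hi => ?_)
        rw [Function.update_of_ne (ne_of_mem_erase hi)]
      · rw [if_neg (fun h => h7 (h6.1 h)), if_neg h7, mul_zero]
    rw [sum_congr rfl (fun u _ => h5 u), ← mul_sum, abs_mul, abs_prod,
      prod_eq_one (fun i _ => sgq_abs c₀ (Y i)), one_mul, sum_ite_mem, univ_inter]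
    exact h4
  rw [h1]
  have h4 : (2 : ℝ) ^ n * |∑ Y, F Y| ≤ 2 ^ n * (2 ^ (t * n) * δ) := by
    rw [← abs_of_pos (show (0 : ℝ) < 2 ^ n by positivity), ← abs_mul, ← h2,
      abs_of_pos (show (0 : ℝ) < 2 ^ n by positivity)]
    refine (abs_sum_le_sum_abs _ _).trans ?_
    refine (sum_le_sum (fun Y _ => h3 Y)).trans ?_
    rw [sum_const, nsmul_eq_mul, card_univ, Fintype.card_fun, Fintype.card_fun, Fintype.card_bool,
      Fintype.card_fin, Fintype.card_fin, ← pow_mul, Nat.mul_comm n t]
    push_cast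
    linarith
  exact le_of_mul_le_mul_left h4 (by positivity)

open scoped Classical in
theorem indA (X : Finset (Fin t → Fin n → Bool)) (hv : (Fin t → Fin n → Bool) → Fin t → Prop)
    (c₀ : Coef n → Bool) (a₀ : ℕ) (δ : ℝ) (hδ : 0 ≤ δ) (ht : 1 ≤ t)
    (hhalf : ∀ Y ∈ X, 2 * (univ.filter (fun j => hv Y j)).card ≤ t)
    (hB : ∀ (S : Finset (Fin t)) (j : Fin t), S.card ≤ a₀ → ∀ Y : Fin t → Fin n → Bool,
      |∑ u ∈ univ.filter (fun u : Fin n → Bool => Function.update Y j u ∈ X ∧
        (∀ i ∈ S, hv (Function.update Y j u) i) ∧ ¬ hv (Function.update Y j u) j), RBP.sgq c₀ u| ≤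
      2 ^ n * δ) :
    ∀ a ≤ a₀, ∃ S : Finset (Fin t), S.card ≤ a ∧
      2 ^ a * (X.filter (fun Y => ∀ i ∈ S, hv Y i)).card ≤ X.card ∧
      |∑ Y ∈ X, sgn c₀ Y| ≤
        |∑ Y ∈ X.filter (fun Y => ∀ i ∈ S, hv Y i), sgn c₀ Y| + a * (2 ^ (t * n) * δ) := by
  intro a
  induction a with
  | zero =>
    intro _
    refine ⟨∅, le_rfl, ?_, ?_⟩
    · simp
    · simp
  | succ a ih =>
    intro ha
    obtain ⟨S, h1, h2, h3⟩ := ih (by omega)
    have hδ' : 0 ≤ 2 ^ (t * n) * δ := by positivity
    obtain ⟨Z, hZ⟩ : ∃ Z, Z = X.filter (fun Y => ∀ i ∈ S, hv Y i) := ⟨_, rfl⟩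
    have hZs := stepA X hv c₀ S
    rw [← hZ] at h2 h3 hZs
    obtain ⟨j, hj⟩ := half Z hv ht (fun Y hY => hhalf Y (by
      rw [hZ] at hY
      exact (mem_filter.1 hY).1))
    by_cases hjS : j ∈ S
    · have h4 : Z.filter (fun Y => hv Y j) = Z := by
        refine filter_true_of_mem (fun Y hY => ?_)
        rw [hZ] at hY
        exact (mem_filter.1 hY).2 j hjS
      rw [h4] at hj
      have h5 : Z.card = 0 := by omega
      refine ⟨S, by omega, ?_, ?_⟩
      · rw [← hZ, h5]
        omega
      · rw [← hZ]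
        refine h3.trans ?_
        push_cast
        linarith
    · have h4 : X.filter (fun Y => ∀ i ∈ insert j S, hv Y i) = Z.filter (fun Y => hv Y j) := by
        rw [hZ]
        ext Y
        rw [mem_filter, mem_filter, mem_filter]
        simp only [mem_insert, forall_eq_or_imp]
        tauto
      refine ⟨insert j S, ?_, ?_, ?_⟩
      · rw [card_insert_of_notMem hjS]
        omega
      · rw [h4, pow_succ]
        calc 2 ^ a * 2 * (Z.filter (fun Y => hv Y j)).card
            = 2 ^ a * (2 * (Z.filter (fun Y => hv Y j)).card) := by ring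
          _ ≤ 2 ^ a * Z.card := Nat.mul_le_mul_left _ hj
          _ ≤ _ := h2
      · have h5 := hZs j δ (hB S j (by omega))
        have h6 : ∑ Y ∈ Z, sgn c₀ Y = ∑ Y ∈ Z.filter (fun Y => hv Y j), sgn c₀ Y +
            ∑ Y ∈ Z.filter (fun Y => ¬ hv Y j), sgn c₀ Y :=
          (sum_filter_add_sum_filter_not _ _ _).symm
        have h7 : |∑ Y ∈ Z, sgn c₀ Y| ≤
            |∑ Y ∈ Z.filter (fun Y => hv Y j), sgn c₀ Y| + 2 ^ (t * n) * δ := by
          rw [h6]
          refine (abs_add_le _ _).trans ?_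
          linarith
        rw [h4]
        push_cast
        linarith

open scoped Classical in
theorem sumA (X : Finset (Fin t → Fin n → Bool)) (hv : (Fin t → Fin n → Bool) → Fin t → Prop)
    (c₀ : Coef n → Bool) (a : ℕ) (δ : ℝ) (hδ : 0 ≤ δ) (ht : 1 ≤ t)
    (hhalf : ∀ Y ∈ X, 2 * (univ.filter (fun j => hv Y j)).card ≤ t)
    (hB : ∀ (S : Finset (Fin t)) (j : Fin t), S.card ≤ a → ∀ Y : Fin t → Fin n → Bool,
      |∑ u ∈ univ.filter (fun u : Fin n → Bool => Function.update Y j u ∈ X ∧
        (∀ i ∈ S, hv (Function.update Y j u) i) ∧ ¬ hv (Function.update Y j u) j), RBP.sgq c₀ u| ≤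
      2 ^ n * δ) :
    |∑ Y ∈ X, sgn c₀ Y| ≤ X.card * (1 / 2 ^ a) + a * (2 ^ (t * n) * δ) := by
  obtain ⟨S, -, h2, h3⟩ := indA X hv c₀ a δ hδ ht hhalf hB a le_rfl
  refine h3.trans ?_
  obtain ⟨Z, hZ⟩ : ∃ Z, Z = X.filter (fun Y => ∀ i ∈ S, hv Y i) := ⟨_, rfl⟩
  rw [← hZ] at h2 ⊢
  have h4 : |∑ Y ∈ Z, sgn c₀ Y| ≤ Z.card := by
    refine (abs_sum_le_sum_abs _ _).trans ?_
    rw [sum_congr rfl (fun Y _ => sgn_abs c₀ Y), sum_const, nsmul_eq_mul, mul_one]
  have h5 : (Z.card : ℝ) ≤ X.card * (1 / 2 ^ a) := by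
    rw [mul_one_div, le_div_iff₀ (by positivity), mul_comm]
    exact_mod_cast h2
  linarith

open scoped Classical in
/-- The number of right answers. -/
theorem rightA (X : Bool → Finset (Fin t → Fin n → Bool)) (hX : ∀ Y, Y ∈ X true → Y ∉ X false)
    (c₀ : Coef n → Bool) (α β : ℝ)
    (h : ∀ b, |∑ Y ∈ X b, sgn c₀ Y| ≤ (X b).card * α + β) (hα : 0 ≤ α) :
    (((univ : Finset (Fin t → Fin n → Bool)).filter (fun Y =>
      Y ∈ X (parb (fun y => decide (quartic c₀ y = 1)) Y))).card : ℝ) ≤
      2 ^ (t * n) * ((1 + α) / 2) + β := by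
  obtain ⟨f, hf⟩ : ∃ f : (Fin n → Bool) → Bool, f = fun y => decide (quartic c₀ y = 1) := ⟨_, rfl⟩
  obtain ⟨R, hR⟩ : ∃ R : Bool → Finset (Fin t → Fin n → Bool),
      R = fun b => (X b).filter (fun Y => parb f Y = b) := ⟨_, rfl⟩
  rw [← hf]
  have h1 : (univ : Finset (Fin t → Fin n → Bool)).filter (fun Y => Y ∈ X (parb f Y)) ⊆
      R true ∪ R false := by
    intro Y hY
    rw [mem_filter] at hY
    rw [hR, mem_union, mem_filter, mem_filter]
    rcases hd : parb f Y with _ | _
    · rw [hd] at hY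
      exact Or.inr ⟨hY.2, rfl⟩
    · rw [hd] at hY
      exact Or.inl ⟨hY.2, rfl⟩
  have h2 : ((X true).card : ℝ) + (X false).card ≤ 2 ^ (t * n) := by
    have h3 : Disjoint (X true) (X false) := by
      rw [Finset.disjoint_left]
      exact fun Y hY => hX Y hY
    have h4 : (X true).card + (X false).card ≤ 2 ^ (t * n) := by
      rw [← card_union_of_disjoint h3]
      refine (card_le_univ _).trans ?_
      rw [Fintype.card_fun, Fintype.card_fun, Fintype.card_bool, Fintype.card_fin, Fintype.card_fin,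
        ← pow_mul, Nat.mul_comm]
    exact_mod_cast h4
  have h3 : ∀ b : Bool, ((R b).card : ℝ) ≤ ((X b).card * (1 + α) + β) / 2 := by
    intro b
    have h4 : ∑ Y ∈ X b, sgn c₀ Y =
        (if b = true then (-1 : ℝ) else 1) * ((R b).card - ((X b).card - (R b).card)) := by
      have h5 : ∀ Y ∈ X b, sgn c₀ Y = (if b = true then (-1 : ℝ) else 1) *
          ((if parb f Y = b then 1 else 0) - (1 - (if parb f Y = b then 1 else 0))) := by
        intro Y _
        rw [sgn_parb, ← hf]
        rcases hp : parb f Y with _ | _ <;> rcases b with _ | _ <;> simp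
      rw [sum_congr rfl h5, ← mul_sum, sum_sub_distrib, sum_sub_distrib, sum_const, nsmul_eq_mul, mul_one]
      have h6 : ∑ Y ∈ X b, (if parb f Y = b then (1 : ℝ) else 0) = (R b).card := by
        rw [hR]
        simp only
        rw [card_filter]
        push_cast
        rfl
      rw [h6]
    have h7 := h b
    rw [h4, abs_mul] at h7
    have h8 : |(if b = true then (-1 : ℝ) else 1)| = 1 := by
      rcases b with _ | _ <;> simp
    rw [h8, one_mul] at h7
    have h9 := (abs_le.1 h7).2
    linarith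
  have h10 : (((univ : Finset (Fin t → Fin n → Bool)).filter
      (fun Y => Y ∈ X (parb f Y))).card : ℝ) ≤ (R true).card + (R false).card := by
    have h11 := (card_le_card h1).trans (card_union_le _ _)
    exact_mod_cast h11
  have h12 := h3 true
  have h13 := h3 false
  have h14 : ((X true).card + (X false).card : ℝ) * (1 + α) ≤
      2 ^ (t * n) * (1 + α) := mul_le_mul_of_nonneg_right h2 (by linarith)
  linarith

/-! ## Programs -/

theorem blk_sig (c : κ → Bool) (Y : Fin t → Fin n → Bool) (j : Fin t) (a : κ ⊕ Fin t × Fin n) :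
    (sig c Y j a).isRight = blk j a := by
  unfold sig blk
  rcases a with a | p
  · rfl
  · simp only
    by_cases h : p.1 = j
    · simp [h]
    · simp [h]

/-- The tests of different blocks. -/
theorem sum_blk {V : Type} (l : List (Option ((κ ⊕ Fin t × Fin n) × Bool) × V)) :
    ∑ j : Fin t, tl (blk (κ := κ) (n := n) j) l ≤ (l.filterMap Prod.fst).length := by
  induction l with
  | nil => simp [tl]
  | cons e l ih =>
    simp only [tl_cons, sum_add_distrib]
    obtain ⟨a, v⟩ := e
    cases a with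
    | none => simpa using ih
    | some q =>
      have h1 : ∑ j : Fin t, (if blk (κ := κ) (n := n) j q.1 = true then 1 else 0) ≤ 1 := by
        rw [← card_filter]
        refine card_le_one.2 ?_
        intro j hj j' hj'
        have h2 := (mem_filter.1 hj).2
        have h3 := (mem_filter.1 hj').2
        unfold blk at h2 h3
        rcases hq : q.1 with a | p
        · rw [hq] at h2
          exact absurd h2 (by simp)
        · rw [hq] at h2 h3
          simp only [decide_eq_true_eq] at h2 h3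
          rw [← h2, ← h3]
      have h2 : (List.filterMap Prod.fst ((some q, v) :: l)).length = (List.filterMap Prod.fst l).length + 1 := rfl
      rw [h2]
      have h3 : (∑ x : Fin t, (match (some q, v).1 with
          | none => 0
          | some q => if blk (κ := κ) (n := n) x q.1 = true then 1 else 0)) =
          ∑ j : Fin t, (if blk (κ := κ) (n := n) j q.1 = true then 1 else 0) := rfl
      rw [h3]
      omega

theorem heavyU {V : Type} (l : List (Option ((κ ⊕ Fin t × Fin n) × Bool) × V)) (T L : ℕ)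
    (hT : (l.filterMap Prod.fst).length ≤ T) (h : 2 * T ≤ t * (L + 1)) :
    2 * ((univ : Finset (Fin t)).filter (fun j => L < tl (blk (κ := κ) (n := n) j) l)).card ≤ t := by
  have h0 := (sum_blk l).trans hT
  have h1 : ((univ : Finset (Fin t)).filter (fun j => L < tl (blk (κ := κ) (n := n) j) l)).card *
      (L + 1) ≤ T := by
    refine le_trans ?_ h0
    rw [← smul_eq_mul]
    refine le_trans (card_nsmul_le_sum _ (fun j => tl (blk (κ := κ) (n := n) j) l) (L + 1) ?_)
      (sum_le_univ_sum_of_nonneg (fun _ => Nat.zero_le _))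
    intro j hj
    exact (mem_filter.1 hj).2
  have h2 : 2 * ((univ : Finset (Fin t)).filter
      (fun j => L < tl (blk (κ := κ) (n := n) j) l)).card * (L + 1) ≤ t * (L + 1) := by
    rw [Nat.mul_assoc]
    omega
  exact Nat.le_of_mul_le_mul_right h2 (by omega)

/-- One block: the program with a clock and counters, restricted. -/
theorem blockU (hR : S_ResU) (P : NBP (κ ⊕ Fin t × Fin n)) (hP : SUnamb P) (c : κ → Bool)
    (Y : Fin t → Fin n → Bool) (j : Fin t) (S : Finset (Fin t)) (T L : ℕ) :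
    ∃ P' : NBP (Fin n), Fintype.card P'.V = Fintype.card P.V * ((T + 2) * (L + 2) ^ S.card) ∧
      SUnamb P' ∧ ∀ u, AccIn P' L u ↔
        ∃ l v, P.acc v ∧ Path P (inp c (Function.update Y j u)) P.start l v ∧
          (l.filterMap Prod.fst).length ≤ T ∧ (∀ i ∈ S, L < tl (blk i) l) ∧ tl (blk j) l ≤ L := by
  classical
  let M : Option S → ℕ := fun o => match o with
    | none => T
    | some _ => L
  let p : Option S → κ ⊕ Fin t × Fin n → Bool := fun o => match o with
    | none => fun _ => true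
    | some i => blk (i : Fin t)
  obtain ⟨P1, hc1, hu1, hacc1⟩ := counters P hP (Option S) M p
    (fun f => f none ≤ T ∧ ∀ i : S, f (some i) = L + 1)
  obtain ⟨P', hc', hu', hacc'⟩ := hR _ _ P1 (sig c Y j) hu1
  refine ⟨P', ?_, hu', ?_⟩
  · rw [hc', hc1, Fintype.prod_option]
    congr 1
    congr 1
    show ∏ _i : S, (L + 2) = _
    rw [prod_const, card_univ, Fintype.card_coe]
  · intro u
    rw [hacc', elim_sig]
    have h1 := hacc1 (inp c (Function.update Y j u))
      (fun q => (q.filter (fun q => (sig c Y j q.1).isRight)).length ≤ L)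
    rw [h1]
    have h2 : ∀ l : List (Option ((κ ⊕ Fin t × Fin n) × Bool) × P.V),
        ((l.filterMap Prod.fst).filter (fun q => (sig c Y j q.1).isRight)).length = tl (blk j) l := by
      intro l
      unfold tl
      simp only [blk_sig]
    constructor
    · rintro ⟨l, v, hv, hl, h3, h4, h5⟩
      rw [h2] at h3
      refine ⟨l, v, hv, hl, ?_, ?_, h3⟩
      · have h6 : min (tl (p none) l) (M none + 1) ≤ T := h4
        have h7 : min (tl (fun _ => true) l) (T + 1) ≤ T := h6
        rw [tl_true] at h7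
        omega
      · intro i hi
        have h6 : min (tl (p (some ⟨i, hi⟩)) l) (M (some ⟨i, hi⟩) + 1) = L + 1 := h5 ⟨i, hi⟩
        have h7 : min (tl (blk i) l) (L + 1) = L + 1 := h6
        omega
    · rintro ⟨l, v, hv, hl, h3, h4, h5⟩
      refine ⟨l, v, hv, hl, ?_, ?_, ?_⟩
      · rw [h2]
        exact h5
      · show min (tl (fun _ => true) l) (T + 1) ≤ T
        rw [tl_true]
        omega
      · intro i
        show min (tl (blk (i : Fin t)) l) (L + 1) = L + 1
        have := h4 i i.2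
        omega

end ParU

end SRBP
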