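import Pool.Agent.Lib.MP_9dcf40_lc.DU.Spec

/-!
# Strongly unambiguous programs (MP_9dcf40_lc): from programs to closed systems (S_ProgU)
-/

set_option autoImplicit false

namespace SRBP

open Finset

namespace ProgUAux

/-! ## Lists with marked elements -/

section lists

variable {α : Type} (p : α → Bool)

/-- The shortest initial part with `m` marked elements (or the whole list). -/
def tk : ℕ → List α → List α
  | 0, _ => []
  | _ + 1, [] => []
  | m + 1, a :: l => a :: tk (if p a then m else m + 1) l

/-- The rest. -/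
def dr : ℕ → List α → List α
  | 0, l => l
  | _ + 1, [] => []
  | m + 1, a :: l => dr (if p a then m else m + 1) l

theorem tk_zero (l : List α) : tk p 0 l = [] := by cases l <;> rfl

theorem tk_nil (m : ℕ) : tk p m [] = [] := by cases m <;> rfl

theorem dr_nil (m : ℕ) : dr p m [] = [] := by cases m <;> rfl

theorem dr_zero (l : List α) : dr p 0 l = l := by cases l <;> rfl

theorem tk_cons_t {a : α} (h : p a = true) (m : ℕ) (l : List α) : tk p (m + 1) (a :: l) = a :: tk p m l := by
  have e : tk p (m + 1) (a :: l) = a :: tk p (if p a then m else m + 1) l := rfl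
  rw [e, if_pos h]

theorem tk_cons_f {a : α} (h : ¬ p a = true) (m : ℕ) (l : List α) :
    tk p (m + 1) (a :: l) = a :: tk p (m + 1) l := by
  have e : tk p (m + 1) (a :: l) = a :: tk p (if p a then m else m + 1) l := rfl
  rw [e, if_neg h]

theorem dr_cons_t {a : α} (h : p a = true) (m : ℕ) (l : List α) : dr p (m + 1) (a :: l) = dr p m l := by
  have e : dr p (m + 1) (a :: l) = dr p (if p a then m else m + 1) l := rfl
  rw [e, if_pos h]

theorem dr_cons_f {a : α} (h : ¬ p a = true) (m : ℕ) (l : List α) :
    dr p (m + 1) (a :: l) = dr p (m + 1) l := by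
  have e : dr p (m + 1) (a :: l) = dr p (if p a then m else m + 1) l := rfl
  rw [e, if_neg h]

theorem tk_dr (l : List α) : ∀ m : ℕ, tk p m l ++ dr p m l = l := by
  induction l with
  | nil => intro m; rw [tk_nil, dr_nil]; rfl
  | cons a l ih =>
    intro m
    cases m with
    | zero => rw [tk_zero, dr_zero]; rfl
    | succ m =>
      by_cases h : p a = true
      · rw [tk_cons_t p h, dr_cons_t p h, List.cons_append, ih]
      · rw [tk_cons_f p h, dr_cons_f p h, List.cons_append, ih]

theorem cnt_tk (l : List α) : ∀ m : ℕ, (tk p m l).countP p = min m (l.countP p) := by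
  induction l with
  | nil => intro m; rw [tk_nil]; simp
  | cons a l ih =>
    intro m
    cases m with
    | zero => rw [tk_zero]; simp
    | succ m =>
      by_cases h : p a = true
      · rw [tk_cons_t p h, List.countP_cons_of_pos h, List.countP_cons_of_pos h, ih]
        omega
      · rw [tk_cons_f p h, List.countP_cons_of_neg h, List.countP_cons_of_neg h, ih]

theorem tk_dr_add (l : List α) : ∀ a b : ℕ, tk p (a + b) l = tk p a l ++ tk p b (dr p a l) ∧
    dr p (a + b) l = dr p b (dr p a l) := by
  induction l with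
  | nil => intro a b; rw [tk_nil, tk_nil, dr_nil, dr_nil, tk_nil, dr_nil]; exact ⟨rfl, rfl⟩
  | cons c l ih =>
    intro a b
    cases a with
    | zero => rw [Nat.zero_add, tk_zero, dr_zero]; exact ⟨rfl, rfl⟩
    | succ a =>
      have e : a + 1 + b = (a + b) + 1 := by ring
      rw [e]
      by_cases h : p c = true
      · rw [tk_cons_t p h, dr_cons_t p h, tk_cons_t p h, dr_cons_t p h, List.cons_append, (ih a b).1,
          (ih a b).2]
        exact ⟨rfl, rfl⟩
      · have e' : a + b + 1 = (a + 1) + b := by ring
        rw [tk_cons_f p h, dr_cons_f p h, tk_cons_f p h, dr_cons_f p h, List.cons_append, e',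
          (ih (a + 1) b).1, (ih (a + 1) b).2]
        exact ⟨rfl, rfl⟩

theorem tk_full (s q : List α) : ∀ m k : ℕ, s.countP p = m → tk p m s = s →
    tk p (m + k) (s ++ q) = s ++ tk p k q := by
  induction s with
  | nil =>
    intro m k h1 _
    have h2 : m = 0 := by rw [← h1]; simp
    rw [h2, Nat.zero_add]
    rfl
  | cons a s ih =>
    intro m k h1 h2
    cases m with
    | zero => rw [tk_zero] at h2; cases h2
    | succ m =>
      have e : m + 1 + k = (m + k) + 1 := by ring
      by_cases h : p a = true
      · rw [tk_cons_t p h] at h2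
        rw [List.countP_cons_of_pos h] at h1
        rw [e, List.cons_append, tk_cons_t p h, ih m k (by omega) (List.cons.inj h2).2]
        rfl
      · rw [tk_cons_f p h] at h2
        rw [List.countP_cons_of_neg h] at h1
        rw [e, List.cons_append, tk_cons_f p h, ← e, ih (m + 1) k h1 (List.cons.inj h2).2]
        rfl

theorem tk_mono (s : List α) : ∀ m m' : ℕ, m ≤ m' → tk p m s = s → tk p m' s = s := by
  induction s with
  | nil => intro m m' _ _; exact tk_nil p m'
  | cons a s ih =>
    intro m m' hm h
    cases m with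
    | zero => rw [tk_zero] at h; cases h
    | succ m =>
      obtain ⟨k, rfl⟩ : ∃ k, m' = k + 1 := ⟨m' - 1, by omega⟩
      by_cases ha : p a = true
      · rw [tk_cons_t p ha] at h ⊢
        rw [ih m k (by omega) (List.cons.inj h).2]
      · rw [tk_cons_f p ha] at h ⊢
        rw [ih (m + 1) (k + 1) hm (List.cons.inj h).2]

theorem tk_idem (l : List α) : ∀ m : ℕ, tk p m (tk p m l) = tk p m l := by
  induction l with
  | nil => intro m; rw [tk_nil, tk_nil]
  | cons a l ih =>
    intro m
    cases m with
    | zero => rw [tk_zero, tk_zero]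
    | succ m =>
      by_cases h : p a = true
      · rw [tk_cons_t p h, tk_cons_t p h, ih]
      · rw [tk_cons_f p h, tk_cons_f p h, ih]

theorem dr_ne (l : List α) : ∀ m : ℕ, dr p m l ≠ [] → (tk p m l).countP p = m := by
  induction l with
  | nil => intro m h; exact absurd (dr_nil p m) h
  | cons a l ih =>
    intro m hne
    cases m with
    | zero => rw [tk_zero]; rfl
    | succ m =>
      by_cases h : p a = true
      · rw [dr_cons_t p h] at hne
        rw [tk_cons_t p h, List.countP_cons_of_pos h, ih m hne]
      · rw [dr_cons_f p h] at hne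
        rw [tk_cons_f p h, List.countP_cons_of_neg h, ih (m + 1) hne]

/-- The part before the cut number `j`. -/
def cut (r ℓ j : ℕ) (l : List α) : List α := if j < r then tk p (j * ℓ) l else l

/-- The segment number `j`. -/
def seg (r ℓ j : ℕ) (l : List α) : List α :=
  if j + 1 < r then tk p ℓ (dr p (j * ℓ) l) else dr p (j * ℓ) l

theorem cut_succ {r ℓ j : ℕ} (hj : j < r) (l : List α) :
    cut p r ℓ (j + 1) l = cut p r ℓ j l ++ seg p r ℓ j l := by
  unfold cut seg
  rw [if_pos hj]
  by_cases h : j + 1 < r
  · rw [if_pos h, if_pos h, Nat.succ_mul, (tk_dr_add p l _ _).1]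
  · rw [if_neg h, if_neg h, tk_dr]

theorem cut_pre (r ℓ j : ℕ) (l : List α) : cut p r ℓ j l <+: l := by
  unfold cut
  split_ifs with h
  · exact ⟨dr p (j * ℓ) l, tk_dr p l _⟩
  · exact List.prefix_refl l

theorem cut_last (r ℓ : ℕ) (l : List α) : cut p r ℓ r l = l := by
  unfold cut
  rw [if_neg (lt_irrefl r)]

theorem cut_zero {r ℓ : ℕ} (hr : 1 ≤ r) (l : List α) : cut p r ℓ 0 l = [] := by
  unfold cut
  rw [if_pos (by omega), Nat.zero_mul, tk_zero]

theorem cut_eq_succ {r ℓ j : ℕ} (hj : j < r) {l : List α} (h : cut p r ℓ j l = l) :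
    cut p r ℓ (j + 1) l = l ∧ seg p r ℓ j l = [] := by
  have h1 := cut_succ p (ℓ := ℓ) hj l
  have h2 := (cut_pre p r ℓ (j + 1) l).length_le
  have h3 := congrArg List.length h1
  rw [List.length_append, h] at h3
  have h4 : seg p r ℓ j l = [] := List.length_eq_zero_iff.1 (by omega)
  refine ⟨?_, h4⟩
  rw [h1, h, h4, List.append_nil]

/-- Before the end the cut number `j` is right after the test number `j ℓ`. -/
theorem cut_full {r ℓ j : ℕ} (hj : j < r) {l : List α} (h : cut p r ℓ j l ≠ l) :
    (cut p r ℓ j l).countP p = j * ℓ := by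
  unfold cut at h ⊢
  rw [if_pos hj] at h ⊢
  refine dr_ne p l _ fun h0 => h ?_
  have h1 := tk_dr p l (j * ℓ)
  rw [h0, List.append_nil] at h1
  exact h1

theorem seg_idem {r ℓ j : ℕ} (hj : j + 1 < r) (l : List α) : tk p ℓ (seg p r ℓ j l) = seg p r ℓ j l := by
  unfold seg
  rw [if_pos hj, tk_idem]

theorem seg_cnt {r ℓ j K : ℕ} (hj : j < r) (hK : K ≤ r * ℓ) {l : List α} (hl : l.countP p ≤ K) :
    (seg p r ℓ j l).countP p ≤ ℓ := by
  unfold seg
  split_ifs with h
  · rw [cnt_tk]
    exact min_le_left _ _
  · have h1 := congrArg (List.countP p) (tk_dr p l (j * ℓ))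
    rw [List.countP_append, cnt_tk] at h1
    have h2 : r = j + 1 := by omega
    rw [h2, Nat.succ_mul] at hK
    omega

end lists

/-! ## Paths -/

section paths

variable {ι : Type} {P : NBP ι}

/-- The last state. -/
def endS : P.V → List (Option (ι × Bool) × P.V) → P.V
  | u, [] => u
  | _, e :: l => endS e.2 l

theorem path_end {x : ι → Bool} {u v : P.V} {l : List (Option (ι × Bool) × P.V)}
    (h : Path P x u l v) : endS u l = v := by
  induction h with
  | nil u => rfl
  | cons _ _ _ ih => exact ih

theorem path_append {x : ι → Bool} {u v : P.V} {l : List (Option (ι × Bool) × P.V)}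
    (h : Path P x u l v) : ∀ {w : P.V} {l' : List (Option (ι × Bool) × P.V)}, Path P x v l' w →
      Path P x u (l ++ l') w := by
  induction h with
  | nil u => intro w l' h'; exact h'
  | cons h1 h2 _ ih => intro w l' h'; exact Path.cons h1 h2 (ih h')

theorem path_split {x : ι → Bool} (l : List (Option (ι × Bool) × P.V)) :
    ∀ {u w : P.V} {l' : List (Option (ι × Bool) × P.V)}, Path P x u (l ++ l') w →
      Path P x u l (endS u l) ∧ Path P x (endS u l) l' w := by
  induction l with
  | nil => intro u w l' h; exact ⟨Path.nil u, h⟩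
  | cons e l ih =>
    intro u w l' h
    cases h with
    | cons h1 h2 h3 =>
      obtain ⟨h4, h5⟩ := ih h3
      exact ⟨Path.cons h1 h2 h4, h5⟩

theorem path_congr {x z : ι → Bool} {u v : P.V} {l : List (Option (ι × Bool) × P.V)}
    (h : Path P x u l v) : (∀ e ∈ l, ∀ i b, e.1 = some (i, b) → z i = x i) → Path P z u l v := by
  induction h with
  | nil u => intro _; exact Path.nil u
  | @cons u v w a l h1 h2 _ ih =>
    intro hz
    refine Path.cons h1 (fun i b hab => ?_) (ih fun e he => hz e (List.mem_cons_of_mem _ he))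
    rw [hz (a, v) List.mem_cons_self i b hab]
    exact h2 i b hab

/-- The variables tested on a path. -/
def D {n : ℕ} {V : Type} (l : List (Option (Fin n × Bool) × V)) : Finset (Fin n) :=
  ((l.filterMap Prod.fst).map Prod.fst).toFinset

theorem mem_D {n : ℕ} {V : Type} {l : List (Option (Fin n × Bool) × V)} {e : Option (Fin n × Bool) × V}
    (he : e ∈ l) {i : Fin n} {b : Bool} (h : e.1 = some (i, b)) : i ∈ D l := by
  unfold D
  rw [List.mem_toFinset, List.mem_map]
  exact ⟨(i, b), List.mem_filterMap.2 ⟨e, he, h⟩, rfl⟩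

theorem card_D {n : ℕ} {V : Type} (l : List (Option (Fin n × Bool) × V)) :
    (D l).card ≤ l.countP (fun e => e.1.isSome) := by
  unfold D
  refine (List.toFinset_card_le _).trans ?_
  rw [List.length_map, List.length_filterMap_eq_countP]

/-- The label. -/
noncomputable def lab {n : ℕ} {V : Type} (l : List (Option (Fin n × Bool) × V)) (x : Fin n → Bool)
    (v : Fin n) : Option Bool := if v ∈ D l then some (x v) else none

/-- The variables of a label. -/
def dom {n : ℕ} (L : Fin n → Option Bool) : Finset (Fin n) := univ.filter (fun v => (L v).isSome = true)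

theorem dom_lab {n : ℕ} {V : Type} (l : List (Option (Fin n × Bool) × V)) (x : Fin n → Bool) :
    dom (lab l x) = D l := by
  ext v
  unfold dom lab
  rw [mem_filter]
  constructor
  · rintro ⟨-, h⟩
    by_contra hv
    rw [if_neg hv] at h
    cases h
  · intro hv
    rw [if_pos hv]
    exact ⟨mem_univ _, rfl⟩

theorem lab_congr {n : ℕ} {V : Type} {l l' : List (Option (Fin n × Bool) × V)} {x y : Fin n → Bool}
    (h : l = l') (hxy : ∀ v ∈ D l, x v = y v) : lab l x = lab l' y := by
  subst h
  funext v
  unfold lab
  split_ifs with hv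
  · rw [hxy v hv]
  · rfl

end paths

end ProgUAux

open ProgUAux in
theorem tProgU : S_ProgU := by
  classical
  intro n r ℓ K P hU hr hK
  obtain ⟨pt, hpt⟩ : ∃ p : Option (Fin n × Bool) × P.V → Bool, p = fun e => e.1.isSome := ⟨_, rfl⟩
  have hcnt : ∀ l : List (Option (Fin n × Bool) × P.V), (l.filterMap Prod.fst).length = l.countP pt := by
    intro l
    rw [List.length_filterMap_eq_countP, hpt]
  have hcD : ∀ l : List (Option (Fin n × Bool) × P.V), (D l).card ≤ l.countP pt := by
    intro l
    rw [hpt]
    exact card_D l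
  -- the accepting paths
  obtain ⟨lp, hlp⟩ : ∃ lp : (Fin n → Bool) → List (Option (Fin n × Bool) × P.V), ∀ x, AccIn P K x →
      ∃ v, P.acc v ∧ Path P x P.start (lp x) v ∧ (lp x).countP pt ≤ K := by
    have h : ∀ x, ∃ l : List (Option (Fin n × Bool) × P.V), AccIn P K x →
        ∃ v, P.acc v ∧ Path P x P.start l v ∧ l.countP pt ≤ K := by
      intro x
      by_cases hx : AccIn P K x
      · obtain ⟨l, v, h1, h2, h3⟩ := hx
        exact ⟨l, fun _ => ⟨v, h1, h2, by rw [← hcnt]; exact h3⟩⟩
      · exact ⟨[], fun h => absurd h hx⟩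
    choose lp hlp using h
    exact ⟨lp, hlp⟩
  have huni : ∀ x, AccIn P K x → ∀ l v, P.acc v → Path P x P.start l v → l = lp x := by
    intro x hx l v hv hl
    obtain ⟨v', h1, h2, -⟩ := hlp x hx
    exact (hU x).1 l (lp x) v v' hv h1 hl h2
  have hmem : ∀ x, x ∈ ShU P K ↔ AccIn P K x := by
    intro x
    unfold ShU
    rw [mem_filter]
    exact ⟨fun h => h.2, fun h => ⟨mem_univ _, h⟩⟩
  refine ⟨fun x j => endS P.start (cut pt r ℓ j (lp x)), fun j x => lab (seg pt r ℓ j (lp x)) x, dom, ?_, ?_, ?_⟩
  · intro x hx j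
    rw [hmem] at hx
    obtain ⟨-, -, -, h3⟩ := hlp x hx
    change (dom (lab (seg pt r ℓ j (lp x)) x)).card ≤ ℓ
    rw [dom_lab]
    exact (hcD _).trans (seg_cnt pt j.2 hK h3)
  · intro x hx
    rw [hmem] at hx
    obtain ⟨-, -, -, h3⟩ := hlp x hx
    change ∑ j : Fin r, (dom (lab (seg pt r ℓ j (lp x)) x)).card ≤ K
    have h1 : ∀ m : ℕ, m ≤ r → ∑ j ∈ range m, (D (seg pt r ℓ j (lp x))).card ≤ (cut pt r ℓ m (lp x)).countP pt := by
      intro m
      induction m with
      | zero => intro _; simp
      | succ m ih =>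
        intro hm
        rw [sum_range_succ, cut_succ pt (by omega), List.countP_append]
        exact add_le_add (ih (by omega)) (hcD _)
    have h2 := h1 r le_rfl
    rw [cut_last] at h2
    rw [← Fin.sum_univ_eq_sum_range (fun j => (D (seg pt r ℓ j (lp x))).card) r] at h2
    refine le_trans (le_of_eq ?_) (h2.trans h3)
    exact sum_congr rfl fun j _ => by rw [dom_lab]
  · intro w
    obtain ⟨C, hC⟩ : ∃ C, C = (ShU P K).filter
      (fun x => (fun j : Fin (r + 1) => endS P.start (cut pt r ℓ j (lp x))) = w) := ⟨_, rfl⟩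
    have hCC : (ShU P K).filter
      (fun x => (fun j : Fin (r + 1) => endS P.start (cut pt r ℓ j (lp x))) = w) = C := hC.symm
    obtain ⟨W, hW⟩ : ∃ W : ℕ → P.V, ∀ j : Fin (r + 1), W j = w j :=
      ⟨fun j => if h : j < r + 1 then w ⟨j, h⟩ else P.start, fun j => dif_pos j.2⟩
    have hmC : ∀ x, x ∈ C ↔ AccIn P K x ∧ ∀ j, j ≤ r → endS P.start (cut pt r ℓ j (lp x)) = W j := by
      intro x
      rw [hC, mem_filter, hmem]
      constructor
      · rintro ⟨h1, h2⟩
        refine ⟨h1, fun j hj => ?_⟩
        have h3 := hW ⟨j, by omega⟩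
        have h4 := congrFun h2 ⟨j, by omega⟩
        exact h4.trans h3.symm
      · rintro ⟨h1, h2⟩
        refine ⟨h1, funext fun j => ?_⟩
        rw [← hW j]
        exact h2 j (by omega)
    -- the parts of the accepting path
    have hpre : ∀ x ∈ C, ∀ j, j ≤ r → Path P x P.start (cut pt r ℓ j (lp x)) (W j) := by
      intro x hx j hj
      obtain ⟨h1, h2⟩ := (hmC x).1 hx
      obtain ⟨v, -, h3, -⟩ := hlp x h1
      obtain ⟨t, ht⟩ := cut_pre pt r ℓ j (lp x)
      rw [← ht] at h3
      have h4 := (path_split _ h3).1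
      rw [h2 j hj] at h4
      exact h4
    have hseg : ∀ x ∈ C, ∀ j, j < r → Path P x (W j) (seg pt r ℓ j (lp x)) (W (j + 1)) := by
      intro x hx j hj
      have h1 := hpre x hx (j + 1) (by omega)
      rw [cut_succ pt hj] at h1
      have h2 := (path_split _ h1).2
      rwa [((hmC x).1 hx).2 j hj.le] at h2
    -- accepting states are at the end
    have hacc : ∀ x ∈ C, ∀ j, j ≤ r → P.acc (W j) → cut pt r ℓ j (lp x) = lp x := by
      intro x hx j hj ha
      exact huni x ((hmC x).1 hx).1 _ _ ha (hpre x hx j hj)
    have hend : ∀ x ∈ C, ∀ j, j ≤ r → cut pt r ℓ j (lp x) = lp x → P.acc (W j) := by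
      intro x hx j hj he
      obtain ⟨v, h1, h2, -⟩ := hlp x ((hmC x).1 hx).1
      have h3 := path_end (hpre x hx j hj)
      rw [he, path_end h2] at h3
      rw [← h3]
      exact h1
    have hup : ∀ x ∈ C, ∀ j, j < r → P.acc (W j) → P.acc (W (j + 1)) ∧ seg pt r ℓ j (lp x) = [] := by
      intro x hx j hj ha
      obtain ⟨h1, h2⟩ := cut_eq_succ pt hj (hacc x hx j hj.le ha)
      exact ⟨hend x hx (j + 1) (by omega) h1, h2⟩
    have hfull : ∀ x ∈ C, ∀ j, j < r → ¬ P.acc (W j) → (cut pt r ℓ j (lp x)).countP pt = j * ℓ := by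
      intro x hx j hj ha
      exact cut_full pt hj fun he => ha (hend x hx j hj.le he)
    have hlastW : ∀ x ∈ C, P.acc (W r) := fun x hx => hend x hx r le_rfl (cut_last pt r ℓ _)
    have hsegf : ∀ x ∈ C, ∀ j, j < r → ¬ P.acc (W (j + 1)) → j + 1 < r ∧ ¬ P.acc (W j) ∧
        (seg pt r ℓ j (lp x)).countP pt = ℓ ∧ tk pt ℓ (seg pt r ℓ j (lp x)) = seg pt r ℓ j (lp x) := by
      intro x hx j hj ha
      have hj1 : j + 1 < r := by
        by_contra h
        have e : j + 1 = r := by omega
        rw [e] at ha
        exact ha (hlastW x hx)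
      have ha' : ¬ P.acc (W j) := fun h => ha (hup x hx j hj h).1
      refine ⟨hj1, ha', ?_, seg_idem pt hj1 _⟩
      have h1 := hfull x hx (j + 1) hj1 ha
      rw [cut_succ pt hj, List.countP_append, hfull x hx j hj ha', Nat.succ_mul] at h1
      omega
    -- compatible segments are equal
    have hone : ∀ x ∈ C, ∀ y ∈ C, ∀ j, j < r → seg pt r ℓ j (lp x) <+: seg pt r ℓ j (lp y) →
        seg pt r ℓ j (lp x) = seg pt r ℓ j (lp y) := by
      intro x hx y hy j hj hpr
      obtain ⟨t, ht⟩ := hpr
      by_cases ha : P.acc (W (j + 1))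
      · have h1 := hpre y hy (j + 1) (by omega)
        rw [cut_succ pt hj, ← ht, ← List.append_assoc] at h1
        have h2 := (path_split _ h1).1
        have h3 : endS P.start (cut pt r ℓ j (lp y) ++ seg pt r ℓ j (lp x)) = W (j + 1) := by
          have h4 := path_split (cut pt r ℓ j (lp y)) h2
          have h5 := path_end (hseg x hx j hj)
          have h6 := path_end (hpre y hy j hj.le)
          have h7 := path_end h4.2
          rw [h6, h5] at h7
          exact h7.symm
        rw [h3] at h2
        have h4 := huni y ((hmC y).1 hy).1 _ _ ha h2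
        have h5 := (cut_pre pt r ℓ (j + 1) (lp y)).length_le
        rw [cut_succ pt hj, ← ht, List.length_append, List.length_append] at h5
        have h6 := congrArg List.length h4
        rw [List.length_append] at h6
        have h7 : t = [] := List.length_eq_zero_iff.1 (by omega)
        rw [← ht, h7, List.append_nil]
      · obtain ⟨-, -, h3, h4⟩ := hsegf x hx j hj ha
        obtain ⟨-, -, -, h5⟩ := hsegf y hy j hj ha
        have h6 := tk_full pt _ t ℓ 0 h3 h4
        rw [Nat.add_zero, tk_zero, List.append_nil, ht, h5] at h6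
        exact h6.symm
    have hdet : ∀ j : Fin r, ∀ x ∈ C, ∀ y ∈ C, (∀ v ∈ D (seg pt r ℓ j (lp x)),
        v ∈ D (seg pt r ℓ j (lp y)) → x v = y v) → lab (seg pt r ℓ j (lp x)) x = lab (seg pt r ℓ j (lp y)) y := by
      intro j x hx y hy hxy
      obtain ⟨z, hz⟩ : ∃ z : Fin n → Bool, z = fun v => if v ∈ D (seg pt r ℓ j (lp x)) then x v else y v :=
        ⟨_, rfl⟩
      have hzx : ∀ v ∈ D (seg pt r ℓ j (lp x)), z v = x v := fun v hv => by rw [hz]; exact if_pos hv
      have hzy : ∀ v ∈ D (seg pt r ℓ j (lp y)), z v = y v := fun v hv => by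
        by_cases h : v ∈ D (seg pt r ℓ j (lp x))
        · rw [hzx v h, hxy v h hv]
        · rw [hz]
          exact if_neg h
      have g1 := path_congr (z := z) (hseg x hx j j.2) (fun e he i b hb => hzx i (mem_D he hb))
      have g2 := path_congr (z := z) (hseg y hy j j.2) (fun e he i b hb => hzy i (mem_D he hb))
      have he : seg pt r ℓ j (lp x) = seg pt r ℓ j (lp y) := by
        rcases (hU z).2 _ _ _ _ g1 g2 with h | h
        · exact hone x hx y hy j j.2 h
        · exact (hone y hy x hx j j.2 h).symm
      exact lab_congr he fun v hv => hxy v hv (by rw [← he]; exact hv)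
    refine DPC.mk ⟨?_, ?_⟩ ?_
    · intro j x _ y _ hxy v hv
      change v ∈ dom (lab (seg pt r ℓ j (lp x)) x) at hv
      rw [dom_lab] at hv
      have h1 := congrFun hxy v
      change lab (seg pt r ℓ j (lp x)) x v = lab (seg pt r ℓ j (lp y)) y v at h1
      unfold lab at h1
      rw [if_pos hv] at h1
      by_cases hv' : v ∈ D (seg pt r ℓ j (lp y))
      · rw [if_pos hv'] at h1
        exact Option.some.inj h1
      · rw [if_neg hv'] at h1
        cases h1
    · intro j x hx y hy hxy
      rw [hCC] at hx hy
      refine hdet j x hx y hy fun v hv hv' => hxy v ?_ ?_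
      · rw [dom_lab]
        exact hv
      · rw [dom_lab]
        exact hv'
    · intro z Y hY hz
      rw [hCC] at hY ⊢
      have hY0 := hY ⟨0, hr⟩
      obtain ⟨S, hS⟩ : ∃ S : ℕ → List (Option (Fin n × Bool) × P.V), ∀ j : Fin r,
          S j = seg pt r ℓ j (lp (Y j)) :=
        ⟨fun j => if h : j < r then seg pt r ℓ j (lp (Y ⟨j, h⟩)) else [], fun j => dif_pos j.2⟩
      obtain ⟨A, hA0, hA1⟩ : ∃ A : ℕ → List (Option (Fin n × Bool) × P.V), A 0 = [] ∧
          ∀ j, A (j + 1) = A j ++ S j :=
        ⟨fun j => Nat.rec [] (fun j a => a ++ S j) j, rfl, fun j => rfl⟩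
      have hSp : ∀ j, j < r → Path P z (W j) (S j) (W (j + 1)) := by
        intro j hj
        have e := hS ⟨j, hj⟩
        change S j = _ at e
        rw [e]
        refine path_congr (hseg (Y ⟨j, hj⟩) (hY _) j hj) fun e he i b hb => ?_
        refine hz ⟨j, hj⟩ i ?_
        change i ∈ dom (lab (seg pt r ℓ j (lp (Y ⟨j, hj⟩))) (Y ⟨j, hj⟩))
        rw [dom_lab]
        exact mem_D he hb
      have hW0 : W 0 = P.start := by
        have h1 := ((hmC _).1 hY0).2 0 (Nat.zero_le _)
        rw [cut_zero pt hr] at h1
        exact h1.symm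
      have hAp : ∀ j, j ≤ r → Path P z P.start (A j) (W j) := by
        intro j
        induction j with
        | zero =>
          intro _
          rw [hA0, hW0]
          exact Path.nil _
        | succ j ih =>
          intro hj
          rw [hA1]
          exact path_append (ih (by omega)) (hSp j (by omega))
      have hSe : ∀ j, j < r → P.acc (W j) → S j = [] := by
        intro j hj ha
        have e := hS ⟨j, hj⟩
        change S j = _ at e
        rw [e]
        exact (hup _ (hY _) j hj ha).2
      have hupW : ∀ j, j < r → P.acc (W j) → P.acc (W (j + 1)) := fun j hj ha => (hup _ hY0 j hj ha).1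
      have hAf : ∀ j, j < r → ¬ P.acc (W j) → (A j).countP pt = j * ℓ := by
        intro j
        induction j with
        | zero => intro _ _; rw [hA0]; simp
        | succ j ih =>
          intro hj ha
          have e := hS ⟨j, by omega⟩
          change S j = _ at e
          obtain ⟨-, h2, h3, -⟩ := hsegf (Y ⟨j, by omega⟩) (hY _) j (by omega) ha
          rw [hA1, List.countP_append, ih (by omega) h2, e, h3, Nat.succ_mul]
      have hAt : ∀ j, j < r → tk pt (j * ℓ) (A j) = A j := by
        intro j
        induction j with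
        | zero => intro _; rw [hA0, tk_nil]
        | succ j ih =>
          intro hj
          by_cases ha : P.acc (W j)
          · rw [hA1, hSe j (by omega) ha, List.append_nil]
            exact tk_mono pt _ _ _ (Nat.mul_le_mul_right ℓ (Nat.le_succ j)) (ih (by omega))
          · have e := hS ⟨j, by omega⟩
            change S j = _ at e
            rw [hA1, Nat.succ_mul, tk_full pt (A j) (S j) (j * ℓ) ℓ (hAf j (by omega) ha) (ih (by omega)), e,
              seg_idem pt hj]
      -- later parts
      have hext : ∀ k j, j + k = r → ∃ t, A r = A j ++ t ∧ (P.acc (W j) → t = []) := by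
        intro k
        induction k with
        | zero =>
          intro j hj
          rw [Nat.add_zero] at hj
          exact ⟨[], by rw [hj, List.append_nil], fun _ => rfl⟩
        | succ k ih =>
          intro j hj
          obtain ⟨t, h1, h2⟩ := ih (j + 1) (by omega)
          refine ⟨S j ++ t, ?_, fun ha => ?_⟩
          · rw [h1, hA1, List.append_assoc]
          · rw [hSe j (by omega) ha, h2 (hupW j (by omega) ha)]
            rfl
      have hcutA : ∀ j, j ≤ r → cut pt r ℓ j (A r) = A j := by
        intro j hj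
        rcases Nat.lt_or_ge j r with hj' | hj'
        · obtain ⟨t, h1, h2⟩ := hext (r - j) j (by omega)
          unfold cut
          rw [if_pos hj', h1]
          by_cases ha : P.acc (W j)
          · rw [h2 ha, List.append_nil]
            exact hAt j hj'
          · have h3 := tk_full pt (A j) t (j * ℓ) 0 (hAf j hj' ha) (hAt j hj')
            rw [Nat.add_zero, tk_zero, List.append_nil] at h3
            exact h3
        · have e : j = r := by omega
          rw [e, cut_last]
      have haccW : P.acc (W r) := hlastW _ hY0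
      have hnum : (A r).countP pt ≤ K := by
        have hex : ∃ j, P.acc (W j) ∧ j ≤ r := ⟨r, haccW, le_rfl⟩
        obtain ⟨j, hj1, hj2, hmin⟩ : ∃ j, P.acc (W j) ∧ j ≤ r ∧ ∀ i < j, ¬ P.acc (W i) :=
          ⟨Nat.find hex, (Nat.find_spec hex).1, (Nat.find_spec hex).2, fun i hi ha =>
            Nat.find_min hex hi ⟨ha, by have := (Nat.find_spec hex).2; omega⟩⟩
        obtain ⟨t, h1, h2⟩ := hext (r - j) j (by omega)
        rw [h1, h2 hj1, List.append_nil]
        rcases j with _ | j
        · rw [hA0]
          simp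
        · have e := hS ⟨j, by omega⟩
          change S j = _ at e
          have h3 := hmin j (Nat.lt_succ_self j)
          have h4 := hfull (Y ⟨j, by omega⟩) (hY _) j (by omega) h3
          have h5 : (cut pt r ℓ (j + 1) (lp (Y ⟨j, by omega⟩))).countP pt ≤ K := by
            obtain ⟨-, -, -, h6⟩ := hlp (Y ⟨j, by omega⟩) ((hmC _).1 (hY _)).1
            exact (((cut_pre pt r ℓ (j + 1) _).sublist).countP_le).trans h6
          rw [cut_succ pt (by omega), List.countP_append, h4] at h5
          rw [hA1, List.countP_append, hAf j (by omega) h3, e]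
          exact h5
      have hzacc : AccIn P K z := ⟨A r, W r, haccW, hAp r le_rfl, by rw [hcnt]; exact hnum⟩
      have hzl : A r = lp z := huni z hzacc _ _ haccW (hAp r le_rfl)
      have hzC : z ∈ C := by
        rw [hmC]
        refine ⟨hzacc, fun j hj => ?_⟩
        rw [← hzl, hcutA j hj]
        exact path_end (hAp j hj)
      refine ⟨hzC, fun j => ?_⟩
      have h1 := cut_succ pt (ℓ := ℓ) j.2 (A r)
      rw [hcutA (j + 1) j.2, hcutA j j.2.le, hA1, hS j] at h1
      have h2 := List.append_cancel_left h1
      change lab (seg pt r ℓ j (lp z)) z = lab (seg pt r ℓ j (lp (Y j))) (Y j)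
      rw [hzl] at h2
      refine lab_congr h2.symm fun v hv => hz j v ?_
      rw [dom_lab, h2]
      exact hv

end SRBP
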