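import Pool.Agent.Lib.MP_9dcf40_lc.DU.Spec

/-!
# Strongly unambiguous programs: substitution of constants (module RESU)
-/

namespace SRBP

namespace ResU

variable {κ ι : Type}

/-- The program after the substitution. -/
def subU (P : NBP κ) (σ : κ → Bool ⊕ ι) : NBP ι where
  V := P.V
  fin := P.fin
  edge := fun u o v => match o with
    | none => P.edge u none v ∨ ∃ a b, σ a = Sum.inl b ∧ P.edge u (some (a, b)) v
    | some (i, b) => ∃ a, σ a = Sum.inr i ∧ P.edge u (some (a, b)) v
  start := P.start
  acc := P.acc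

/-- The new label of an edge. -/
def fgl (σ : κ → Bool ⊕ ι) : Option (κ × Bool) → Option (ι × Bool)
  | none => none
  | some (a, b) => Sum.elim (fun _ => none) (fun i => some (i, b)) (σ a)

theorem fgl_inl {σ : κ → Bool ⊕ ι} {a : κ} {b c : Bool} (h : σ a = Sum.inl c) :
    fgl σ (some (a, b)) = none := by
  simp only [fgl, h, Sum.elim_inl]

theorem fgl_inr {σ : κ → Bool ⊕ ι} {a : κ} {b : Bool} {i : ι} (h : σ a = Sum.inr i) :
    fgl σ (some (a, b)) = some (i, b) := by
  simp only [fgl, h, Sum.elim_inr]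

/-- The new edge. -/
def fg {V : Type} (σ : κ → Bool ⊕ ι) (p : Option (κ × Bool) × V) : Option (ι × Bool) × V :=
  (fgl σ p.1, p.2)

theorem edge_down (P : NBP κ) (σ : κ → Bool ⊕ ι) (y : ι → Bool) {u v : P.V}
    {o : Option (κ × Bool)} (he : P.edge u o v)
    (hc : ∀ a b, o = some (a, b) → Sum.elim id y (σ a) = b) :
    (subU P σ).edge u (fgl σ o) v ∧ ∀ i b, fgl σ o = some (i, b) → y i = b := by
  rcases o with _ | ⟨a, b⟩
  · exact ⟨Or.inl he, fun i b h => by simp [fgl] at h⟩
  · have hab : Sum.elim id y (σ a) = b := hc a b rfl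
    rcases hs : σ a with c | i
    · rw [hs, Sum.elim_inl] at hab
      have hcb : c = b := hab
      rw [fgl_inl hs]
      refine ⟨Or.inr ⟨a, b, ?_, he⟩, fun i b h => by simp at h⟩
      rw [hs, hcb]
    · rw [hs, Sum.elim_inr] at hab
      rw [fgl_inr hs]
      refine ⟨⟨a, hs, he⟩, fun i' b' h => ?_⟩
      simp only [Option.some.injEq, Prod.mk.injEq] at h
      rw [← h.1, ← h.2]
      exact hab

theorem edge_up (P : NBP κ) (σ : κ → Bool ⊕ ι) (y : ι → Bool) {u v : (subU P σ).V}
    {o' : Option (ι × Bool)} (he : (subU P σ).edge u o' v)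
    (hc : ∀ i b, o' = some (i, b) → y i = b) :
    ∃ o : Option (κ × Bool), P.edge u o v ∧ fgl σ o = o' ∧
      ∀ a b, o = some (a, b) → Sum.elim id y (σ a) = b := by
  rcases o' with _ | ⟨i, b⟩
  · rcases he with he | ⟨a, b, hab, he⟩
    · exact ⟨none, he, rfl, fun a b h => by simp at h⟩
    · refine ⟨some (a, b), he, fgl_inl hab, fun a' b' h => ?_⟩
      simp only [Option.some.injEq, Prod.mk.injEq] at h
      rw [← h.1, ← h.2, hab]
      rfl
  · obtain ⟨a, ha, he⟩ := he
    refine ⟨some (a, b), he, fgl_inr ha, fun a' b' h => ?_⟩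
    simp only [Option.some.injEq, Prod.mk.injEq] at h
    rw [← h.1, ← h.2, ha]
    exact hc i b rfl

/-- Paths of `P` are paths of the new program. -/
theorem down (P : NBP κ) (σ : κ → Bool ⊕ ι) (y : ι → Bool) {u v : P.V}
    {l : List (Option (κ × Bool) × P.V)} (h : Path P (fun a => Sum.elim id y (σ a)) u l v) :
    Path (subU P σ) y u (l.map (fg σ)) v := by
  induction h with
  | nil u => exact Path.nil (P := subU P σ) u
  | @cons u v w a l he hc _ ih =>
    obtain ⟨h1, h2⟩ := edge_down P σ y he hc
    exact Path.cons (P := subU P σ) h1 h2 ih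

/-- Paths of the new program come from paths of `P`. -/
theorem up (P : NBP κ) (σ : κ → Bool ⊕ ι) (y : ι → Bool) {u v : (subU P σ).V}
    {l' : List (Option (ι × Bool) × (subU P σ).V)} (h : Path (subU P σ) y u l' v) :
    ∃ l : List (Option (κ × Bool) × P.V), Path P (fun a => Sum.elim id y (σ a)) u l v ∧
      l.map (fg σ) = l' := by
  induction h with
  | nil u => exact ⟨[], Path.nil (P := P) u, rfl⟩
  | @cons u v w a l he hc _ ih =>
    obtain ⟨m, h1, h2⟩ := ih
    obtain ⟨o, h3, h4, h5⟩ := edge_up P σ y he hc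
    exact ⟨(o, v) :: m, Path.cons (P := P) h3 h5 h1,
      congrArg₂ (fun (o : Option (ι × Bool)) (t : List (Option (ι × Bool) × P.V)) => (o, v) :: t)
        h4 h2⟩

/-- The number of tests. -/
theorem cnt {V : Type} (σ : κ → Bool ⊕ ι) (l : List (Option (κ × Bool) × V)) :
    ((l.map (fg σ)).filterMap Prod.fst).length =
      ((l.filterMap Prod.fst).filter (fun q => (σ q.1).isRight)).length := by
  induction l with
  | nil => rfl
  | cons p l ih =>
    obtain ⟨a, v⟩ := p
    rcases a with _ | ⟨a, b⟩
    · rw [List.map_cons]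
      have h1 : fg (V := V) σ (none, v) = (none, v) := rfl
      rw [h1, List.filterMap_cons_none rfl, List.filterMap_cons_none rfl]
      exact ih
    · rw [List.map_cons]
      rcases hs : σ a with c | i
      · have h1 : fg (V := V) σ (some (a, b), v) = (none, v) := by
          unfold fg
          rw [fgl_inl hs]
        have h2 : ((some (a, b), v) :: l).filterMap Prod.fst = (a, b) :: l.filterMap Prod.fst := rfl
        rw [h1, List.filterMap_cons_none rfl, h2, List.filter_cons_of_neg (by simp [hs])]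
        exact ih
      · have h1 : fg (V := V) σ (some (a, b), v) = (some (i, b), v) := by
          unfold fg
          rw [fgl_inr hs]
        have h2 : ((some (a, b), v) :: l).filterMap Prod.fst = (a, b) :: l.filterMap Prod.fst := rfl
        have h3 : ((some (i, b), v) :: l.map (fg σ)).filterMap Prod.fst =
            (i, b) :: (l.map (fg σ)).filterMap Prod.fst := rfl
        rw [h1, h2, h3, List.filter_cons_of_pos (by simp [hs]), List.length_cons,
          List.length_cons, ih]

end ResU

open ResU in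
theorem tResU : S_ResU := by
  intro κ ι P σ hP
  refine ⟨subU P σ, rfl, ?_, ?_⟩
  · intro y
    obtain ⟨h1, h2⟩ := hP (fun a => Sum.elim id y (σ a))
    constructor
    · intro l l' v v' hv hv' hl hl'
      obtain ⟨m, hm, rfl⟩ := up P σ y hl
      obtain ⟨m', hm', rfl⟩ := up P σ y hl'
      rw [h1 m m' v v' hv hv' hm hm']
    · intro u v l l' hl hl'
      obtain ⟨m, hm, rfl⟩ := up P σ y hl
      obtain ⟨m', hm', rfl⟩ := up P σ y hl'
      rcases h2 u v m m' hm hm' with h | h
      · exact Or.inl (h.map _)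
      · exact Or.inr (h.map _)
  · intro y T
    constructor
    · rintro ⟨l', v, hv, hl', hT⟩
      obtain ⟨m, hm, rfl⟩ := up P σ y hl'
      exact ⟨m, v, hv, hm, (cnt σ m).ge.trans hT⟩
    · rintro ⟨l, v, hv, hl, hT⟩
      refine ⟨l.map (fg σ), v, hv, down P σ y hl, ?_⟩
      exact (cnt σ l).le.trans hT

end SRBP
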